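import Mathlib

/-!
# Path-like trees, and a simple imperative language with a cost measure
-/

namespace Pool.Agent.helper82.PL

/-! ### Path-like trees -/

/-- Two points of `ℤ²` are adjacent in the grid when they are at Euclidean distance `1`. -/
def GridAdj (a b : ℤ × ℤ) : Prop := (a.1 - b.1) ^ 2 + (a.2 - b.2) ^ 2 = 1

/-- `e` embeds the path `0, 1, ..., n - 1` in the grid without crossings: the vertices go to
distinct points, and consecutive vertices to adjacent points. -/
def IsEmbedding (n : ℕ) (e : ℕ → ℤ × ℤ) : Prop :=
  (∀ i j, i < n → j < n → e i = e j → i = j) ∧ ∀ i, i + 1 < n → GridAdj (e i) (e (i + 1))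

/-- The part of the path from the vertex `a` to the vertex `b` is straight. -/
def Straight (e : ℕ → ℤ × ℤ) (a b : ℕ) : Prop :=
  ∀ i j, a ≤ i → i < b → a ≤ j → j < b → e (i + 1) - e i = e (j + 1) - e j

/-- The part of the path from the vertex `a` to the vertex `b` is a maximal straight segment. -/
def IsSegment (n : ℕ) (e : ℕ → ℤ × ℤ) (a b : ℕ) : Prop :=
  a < b ∧ b < n ∧ Straight e a b ∧
    ∀ a' b', a' ≤ a → b ≤ b' → b' < n → Straight e a' b' → a' = a ∧ b' = b

/-- `(p, j, l)` is an elementary transformation of the embedded path: the edge `{p, p + 1}` is a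
maximal straight segment by itself, `j` and `l` are vertices of the preceding and of the following
maximal straight segment, they are adjacent in the grid, and `j` is as far from `p` as `l` is from
`p + 1`. It deletes the edge `{p, p + 1}` and adds the edge `{j, l}`. -/
def ElemTrans (n : ℕ) (e : ℕ → ℤ × ℤ) (τ : ℕ × ℕ × ℕ) : Prop :=
  ∃ a b, IsSegment n e a τ.1 ∧ IsSegment n e τ.1 (τ.1 + 1) ∧ IsSegment n e (τ.1 + 1) b ∧
    a ≤ τ.2.1 ∧ τ.2.1 ≤ τ.1 ∧ τ.1 + 1 ≤ τ.2.2 ∧ τ.2.2 ≤ b ∧
    GridAdj (e τ.2.1) (e τ.2.2) ∧ τ.1 - τ.2.1 = τ.2.2 - (τ.1 + 1)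

/-- The graph obtained from the path `0, 1, ..., n - 1` by performing all the transformations
`(p, j, l)` in `S`: the edges `{p, p + 1}` are deleted, and the edges `{j, l}` are added. -/
def transformed (n : ℕ) (S : Set (ℕ × ℕ × ℕ)) : SimpleGraph (Fin n) :=
  SimpleGraph.fromRel fun x y =>
    ((y : ℕ) = x + 1 ∧ ∀ τ ∈ S, τ.1 ≠ x) ∨ ∃ τ ∈ S, τ.2.1 = x ∧ τ.2.2 = y

/-- A tree is path-like if it is obtained from some crossing-free embedding of a path in the grid
by performing a set of elementary transformations of that embedding. -/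
def PathLike {V : Type} (T : SimpleGraph V) : Prop :=
  T.IsTree ∧ ∃ (n : ℕ) (e : ℕ → ℤ × ℤ) (S : Set (ℕ × ℕ × ℕ)), IsEmbedding n e ∧
    (∀ τ ∈ S, ElemTrans n e τ) ∧ Nonempty (T ≃g transformed n S)

/-! ### Programs

The memory consists of registers and three-dimensional arrays holding natural numbers.  The cost
of a step is at least the sum of all the numbers occurring in it, so that the cost bounds the
number of steps, and the lengths of all the numbers involved, even when written in unary. -/

/-- Memory. -/
structure Mem where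
  /-- the registers -/
  reg : ℕ → ℕ
  /-- the arrays -/
  arr : ℕ → ℕ → ℕ → ℕ → ℕ

/-- Write a number in a register. -/
def Mem.setReg (m : Mem) (x v : ℕ) : Mem := { m with reg := Function.update m.reg x v }

/-- Write a number in a cell of an array. -/
def Mem.setArr (m : Mem) (a i j k v : ℕ) : Mem :=
  { m with arr := fun a' i' j' k' =>
      if a' = a ∧ i' = i ∧ j' = j ∧ k' = k then v else m.arr a' i' j' k' }

/-- Expressions. -/
inductive Exp : Type
  | lit (c : ℕ) : Exp
  | reg (x : ℕ) : Exp
  | cell (a : ℕ) (i j k : Exp) : Exp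
  | add (s t : Exp) : Exp

/-- The value of an expression. -/
def Exp.val (m : Mem) : Exp → ℕ
  | .lit c => c
  | .reg x => m.reg x
  | .cell a i j k => m.arr a (i.val m) (j.val m) (k.val m)
  | .add s t => s.val m + t.val m

/-- The cost of the evaluation of an expression: for each subexpression, one more than its
value, and the addresses. -/
def Exp.cost (m : Mem) : Exp → ℕ
  | .lit c => c + 1
  | .reg x => x + m.reg x + 1
  | .cell a i j k => a + i.cost m + j.cost m + k.cost m + m.arr a (i.val m) (j.val m) (k.val m) + 1
  | .add s t => s.cost m + t.cost m + (s.val m + t.val m) + 1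

/-- Tests. -/
inductive Test : Type
  | eq (s t : Exp) : Test
  | lt (s t : Exp) : Test
  | not (φ : Test) : Test
  | and (φ ψ : Test) : Test
  | ex (x : ℕ) (b : Exp) (φ : Test) : Test

/-- The truth value of a test; `ex x b φ` tests whether `φ` holds for some value of the register
`x` less than the value of `b`. -/
def Test.holds : Test → Mem → Prop
  | .eq s t, m => s.val m = t.val m
  | .lt s t, m => s.val m < t.val m
  | .not φ, m => ¬ φ.holds m
  | .and φ ψ, m => φ.holds m ∧ ψ.holds m
  | .ex x b φ, m => ∃ i, i < b.val m ∧ φ.holds (m.setReg x i)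

/-- The cost of the evaluation of a test; the test `ex x b φ` is carried out by trying all the
values of the register `x` less than the value of `b`. -/
def Test.cost : Test → Mem → ℕ
  | .eq s t, m => s.cost m + t.cost m + 1
  | .lt s t, m => s.cost m + t.cost m + 1
  | .not φ, m => φ.cost m + 1
  | .and φ ψ, m => φ.cost m + ψ.cost m + 1
  | .ex x b φ, m => x + b.cost m + 1 +
      ∑ i ∈ Finset.range (b.val m), (i + 1 + φ.cost (m.setReg x i))

/-- Programs. -/
inductive Cmd : Type
  | put (a : ℕ) (i j k t : Exp) : Cmd
  | seq (c d : Cmd) : Cmd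
  | cond (φ : Test) (c : Cmd) : Cmd
  | loop (x : ℕ) (b : Exp) (c : Cmd) : Cmd

/-- The memory before the `i`-th pass through the loop with counter `x` and body `f`. -/
def iter (x : ℕ) (f : Mem → Mem) (m : Mem) : ℕ → Mem
  | 0 => m
  | i + 1 => f ((iter x f m i).setReg x i)

open Classical in
/-- The effect of a program: `put a i j k t` writes `t` in the cell `(i, j, k)` of the array `a`,
`cond φ c` runs `c` if `φ` holds, and `loop x b c` runs `c` for the values `0, 1, ..., b - 1` of the
register `x`. -/
noncomputable def Cmd.run : Cmd → Mem → Mem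
  | .put a i j k t, m => m.setArr a (i.val m) (j.val m) (k.val m) (t.val m)
  | .seq c d, m => d.run (c.run m)
  | .cond φ c, m => if φ.holds m then c.run m else m
  | .loop x b c, m => iter x c.run m (b.val m)

open Classical in
/-- The cost of the execution of a program. -/
noncomputable def Cmd.cost : Cmd → Mem → ℕ
  | .put a i j k t, m => a + i.cost m + j.cost m + k.cost m + t.cost m + 1
  | .seq c d, m => c.cost m + d.cost (c.run m) + 1
  | .cond φ c, m => φ.cost m + (if φ.holds m then c.cost m else 0) + 1
  | .loop x b c, m => x + b.cost m + 1 +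
      ∑ i ∈ Finset.range (b.val m), (i + 1 + c.cost ((iter x c.run m i).setReg x i))

/-! ### Inputs -/

/-- `E` lists the edges of the graph `T`. -/
def ListsEdges {n : ℕ} (T : SimpleGraph (Fin n)) (E : List (Fin n × Fin n)) : Prop :=
  ∀ x y, T.Adj x y ↔ (x, y) ∈ E ∨ (y, x) ∈ E

/-- The initial memory, given the number `n` of vertices and the list `E` of edges: `n` and the
length of `E` are in the registers `0` and `1`, the ends of the `i`-th edge are in the cells
`(i, 0, 0)` and `(i, 1, 0)` of the array `0`, and everything else is `0`. -/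
def input (n : ℕ) (E : List (Fin n × Fin n)) : Mem where
  reg x := if x = 0 then n else if x = 1 then E.length else 0
  arr a i j k := if a = 0 ∧ k = 0 then
      (if j = 0 then ((E[i]?).map fun p => (p.1 : ℕ)).getD 0
      else if j = 1 then ((E[i]?).map fun p => (p.2 : ℕ)).getD 0 else 0)
    else 0

/-- The program accepts an input if it ends with the number `1` in the cell `(0, 0, 0)` of the
array `3`. -/
def Cmd.accepts (c : Cmd) (m : Mem) : Prop := (c.run m).arr 3 0 0 0 = 1

end Pool.Agent.helper82.PL
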