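import Pool.Agent.helper82.PL.Defs

/-!
# From grid embeddings to combinatorial data
-/

namespace Pool.Agent.helper82.PL

/-- Combinatorial data: positions of the transformed edges, and the distances. -/
structure LF (N : ℕ) (P : ℕ → Prop) (d : ℕ → ℕ) : Prop where
  pos : ∀ p, P p → 1 ≤ d p
  left : ∀ p, P p → d p ≤ p
  right : ∀ p, P p → p + 1 + d p < N
  sep1 : ∀ p p', P p → P p' → p < p' → p + 1 + d p ≤ p'
  sep2 : ∀ p p', P p → P p' → p < p' → p + 1 + d p' ≤ p'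

theorem unit_cases {x y : ℤ} (h : x ^ 2 + y ^ 2 = 1) :
    (x = 1 ∧ y = 0) ∨ (x = -1 ∧ y = 0) ∨ (x = 0 ∧ y = 1) ∨ (x = 0 ∧ y = -1) := by
  have hx : x ≤ 1 := by nlinarith [sq_nonneg y]
  have hx' : -1 ≤ x := by nlinarith [sq_nonneg y]
  have hy : y ≤ 1 := by nlinarith [sq_nonneg x]
  have hy' : -1 ≤ y := by nlinarith [sq_nonneg x]
  interval_cases x <;> interval_cases y <;> simp_all

theorem turn {α δ β : ℤ × ℤ} {d : ℤ} (hd : 1 ≤ d) (hα : α.1 ^ 2 + α.2 ^ 2 = 1)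
    (hδ : δ.1 ^ 2 + δ.2 ^ 2 = 1) (hβ : β.1 ^ 2 + β.2 ^ 2 = 1) (h1 : α ≠ δ) (h2 : α ≠ -δ)
    (h3 : β ≠ δ) (h4 : β ≠ -δ)
    (h : (δ.1 + d * (α.1 + β.1)) ^ 2 + (δ.2 + d * (α.2 + β.2)) ^ 2 = 1) : β = -α := by
  obtain ⟨α1, α2⟩ := α
  obtain ⟨δ1, δ2⟩ := δ
  obtain ⟨β1, β2⟩ := β
  simp only [Prod.neg_mk, ne_eq, Prod.mk.injEq] at *
  rcases unit_cases hα with ⟨rfl, rfl⟩ | ⟨rfl, rfl⟩ | ⟨rfl, rfl⟩ | ⟨rfl, rfl⟩ <;>
  rcases unit_cases hβ with ⟨rfl, rfl⟩ | ⟨rfl, rfl⟩ | ⟨rfl, rfl⟩ | ⟨rfl, rfl⟩ <;>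
  rcases unit_cases hδ with ⟨rfl, rfl⟩ | ⟨rfl, rfl⟩ | ⟨rfl, rfl⟩ | ⟨rfl, rfl⟩ <;>
  simp at * <;> nlinarith

theorem Straight.sub {e : ℕ → ℤ × ℤ} {a b : ℕ} (h : Straight e a b) {c : ℕ} (hac : a ≤ c)
    (hcb : c < b) {i : ℕ} (hai : a ≤ i) : ∀ m, i + m ≤ b →
      e (i + m) - e i = (m : ℤ) • (e (c + 1) - e c) := by
  intro m
  induction m with
  | zero => intro _; simp
  | succ m ih =>
    intro hm
    have h1 := ih (by omega)
    have h2 := h (i + m) c (by omega) (by omega) hac hcb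
    have h3 : e (i + (m + 1)) - e i = (e (i + m + 1) - e (i + m)) + (e (i + m) - e i) := by
      rw [← add_assoc]; abel
    rw [h3, h1, h2]
    push_cast
    rw [add_smul, one_smul]
    abel

theorem gridAdj_iff {a b : ℤ × ℤ} : GridAdj a b ↔ (b - a).1 ^ 2 + (b - a).2 ^ 2 = 1 := by
  unfold GridAdj
  simp only [Prod.fst_sub, Prod.snd_sub]
  constructor <;> intro h <;> nlinarith

/-- The shape of a proper elementary transformation. -/
theorem ElemTrans.shape {n : ℕ} {e : ℕ → ℤ × ℤ} (he : IsEmbedding n e) {p j l : ℕ}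
    (h : ElemTrans n e (p, j, l)) (hj : j < p) :
    1 ≤ p ∧ p + 2 < n ∧ p + 1 < l ∧ l < n ∧ l = p + 1 + (p - j) ∧
      e (p + 2) - e (p + 1) = -(e p - e (p - 1)) := by
  obtain ⟨a, b, ⟨ha1, ha2, ha3, ha4⟩, ⟨hp1, hp2, hp3, hp4⟩, ⟨hb1, hb2, hb3, hb4⟩, h1, h2, h3, h4,
    h5, h6⟩ := h
  simp only at *
  have hl : l = p + 1 + (p - j) := by omega
  have hlp : p + 1 < l := by omega
  refine ⟨by omega, by omega, hlp, by omega, hl, ?_⟩
  set α := e p - e (p - 1) with hα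
  set δ := e (p + 1) - e p with hδ
  set β := e (p + 2) - e (p + 1) with hβ
  have e1 : e (p - 1 + 1) - e (p - 1) = α := by rw [hα, show p - 1 + 1 = p by omega]
  have uα : α.1 ^ 2 + α.2 ^ 2 = 1 := by
    have := he.2 (p - 1) (by omega)
    rw [gridAdj_iff, e1] at this
    exact this
  have uδ : δ.1 ^ 2 + δ.2 ^ 2 = 1 := gridAdj_iff.1 (he.2 p (by omega))
  have uβ : β.1 ^ 2 + β.2 ^ 2 = 1 := gridAdj_iff.1 (he.2 (p + 1) (by omega))
  have n1 : α ≠ δ := by
    intro h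
    have := hp4 (p - 1) (p + 1) (by omega) le_rfl (by omega) (fun i k hi1 hi2 hk1 hk2 => ?_)
    · omega
    · have : ∀ i, p - 1 ≤ i → i < p + 1 → e (i + 1) - e i = δ := by
        intro i hi1 hi2
        have : i = p - 1 ∨ i = p := by omega
        rcases this with rfl | rfl
        · rw [e1, h]
        · rfl
      rw [this i hi1 hi2, this k hk1 hk2]
  have n2 : α ≠ -δ := by
    intro h
    have : e (p + 1) = e (p - 1) := by
      have : e (p + 1) - e (p - 1) = δ + α := by rw [hα, hδ]; abel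
      rw [h, add_neg_cancel] at this
      exact sub_eq_zero.1 this
    have := he.1 (p + 1) (p - 1) (by omega) (by omega) this
    omega
  have n3 : β ≠ δ := by
    intro h
    have := hp4 p (p + 2) le_rfl (by omega) (by omega) (fun i k hi1 hi2 hk1 hk2 => ?_)
    · omega
    · have : ∀ i, p ≤ i → i < p + 2 → e (i + 1) - e i = δ := by
        intro i hi1 hi2
        have : i = p ∨ i = p + 1 := by omega
        rcases this with rfl | rfl
        · rfl
        · exact h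
      rw [this i hi1 hi2, this k hk1 hk2]
  have n4 : β ≠ -δ := by
    intro h
    have : e (p + 2) = e p := by
      have : e (p + 2) - e p = β + δ := by rw [hβ, hδ]; abel
      rw [h, neg_add_cancel] at this
      exact sub_eq_zero.1 this
    have := he.1 (p + 2) p (by omega) (by omega) this
    omega
  have s1 : e p - e j = ((p - j : ℕ) : ℤ) • α := by
    have := ha3.sub (c := p - 1) (by omega) (by omega) (i := j) h1 (p - j) (by omega)
    rw [e1, show j + (p - j) = p by omega] at this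
    exact this
  have s2 : e l - e (p + 1) = ((p - j : ℕ) : ℤ) • β := by
    have := hb3.sub (c := p + 1) le_rfl (by omega) (i := p + 1) le_rfl (p - j) (by omega)
    rw [← hl] at this
    exact this
  have s3 : e l - e j = δ + ((p - j : ℕ) : ℤ) • (α + β) := by
    have : e l - e j = (e l - e (p + 1)) + (e (p + 1) - e p) + (e p - e j) := by abel
    rw [this, s1, s2, ← hδ, smul_add]
    abel
  rw [gridAdj_iff, s3] at h5
  simp only [Prod.fst_add, Prod.snd_add, Prod.smul_fst, Prod.smul_snd, smul_eq_mul] at h5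
  exact turn (by omega) uα uδ uβ n1 n2 n3 n4 h5

/-- The adjacency relation of the transformed graph. -/
def TAdj (S : Set (ℕ × ℕ × ℕ)) (x y : ℕ) : Prop :=
  (y = x + 1 ∧ ∀ τ ∈ S, τ.1 ≠ x) ∨ ∃ τ ∈ S, τ.2.1 = x ∧ τ.2.2 = y

theorem exists_LF {n : ℕ} {e : ℕ → ℤ × ℤ} (he : IsEmbedding n e) {S : Set (ℕ × ℕ × ℕ)}
    (hS : ∀ τ ∈ S, ElemTrans n e τ) :
    ∃ (P : ℕ → Prop) (d : ℕ → ℕ), LF n P d ∧
      (∀ q, q + 1 < n → ¬ P q → TAdj S q (q + 1)) ∧
      ∀ p, P p → TAdj S (p - d p) (p + 1 + d p) := by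
  classical
  let P : ℕ → Prop := fun p => ∃ j l, (p, j, l) ∈ S ∧ j < p
  have hP : ∀ p, P p → ∃ j, ∃ l, (p, j, l) ∈ S ∧ j < p := fun p h => h
  let J : ℕ → ℕ := fun p => if h : P p then (hP p h).choose else 0
  have hJ : ∀ p, P p → ∃ l, (p, J p, l) ∈ S ∧ J p < p := by
    intro p h
    have : J p = (hP p h).choose := dif_pos h
    rw [this]
    exact (hP p h).choose_spec
  have shape : ∀ p, P p → 1 ≤ p ∧ p + 2 < n ∧ p + 1 + (p - J p) < n ∧ J p < p ∧
      e (p + 2) - e (p + 1) = -(e p - e (p - 1)) ∧ (p, J p, p + 1 + (p - J p)) ∈ S := by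
    intro p h
    obtain ⟨l, h1, h2⟩ := hJ p h
    obtain ⟨h3, h4, h5, h6, h7, h8⟩ := (hS _ h1).shape he h2
    subst h7
    exact ⟨h3, h4, h6, h2, h8, h1⟩
  -- no two consecutive positions
  have cons : ∀ p, P p → ¬ P (p + 1) := by
    intro p h h'
    obtain ⟨h1, _, _, _, h2, _⟩ := shape p h
    obtain ⟨_, h3, _, _, h4, _⟩ := shape (p + 1) h'
    have h5 : e (p + 3) = e (p - 1) := by
      have : e (p + 3) - e (p - 1) = (e (p + 1 + 2) - e (p + 1 + 1)) + (e (p + 2) - e (p + 1)) +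
          (e (p + 1) - e (p + 1 - 1)) + (e p - e (p - 1)) := by
        rw [show p + 1 + 2 = p + 3 by omega, show p + 1 + 1 = p + 2 by omega,
          show p + 1 - 1 = p by omega]
        abel
      rw [h2, h4] at this
      apply sub_eq_zero.1
      rw [this]
      abel
    have := he.1 (p + 3) (p - 1) (by omega) (by omega) h5
    omega
  refine ⟨P, fun p => p - J p, ⟨?_, ?_, ?_, ?_, ?_⟩, ?_, ?_⟩
  · intro p h
    obtain ⟨_, _, _, h1, _, _⟩ := shape p h
    show 1 ≤ p - J p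
    omega
  · intro p h
    exact Nat.sub_le _ _
  · intro p h
    exact (shape p h).2.2.1
  · intro p p' h h' hlt
    show p + 1 + (p - J p) ≤ p'
    by_contra hcon
    obtain ⟨_, _, h1, _, _, h2⟩ := shape p h
    obtain ⟨_, _, _, _, _, h2'⟩ := shape p' h'
    obtain ⟨a, b, _, _, ⟨hb1, hb2, hb3, hb4⟩, _, _, _, hb, _, _⟩ := hS _ h2
    obtain ⟨_, _, _, ⟨_, _, _, hm⟩, _⟩ := hS _ h2'
    simp only at *
    have := hm (p + 1) b (by omega) (by omega) hb2 hb3
    have h3 : p' = p + 1 := by omega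
    exact cons p h (h3 ▸ h')
  · intro p p' h h' hlt
    show p + 1 + (p' - J p') ≤ p'
    by_contra hcon
    obtain ⟨_, _, h1, _, _, h2⟩ := shape p h
    obtain ⟨_, _, _, h3, _, h2'⟩ := shape p' h'
    obtain ⟨_, _, _, ⟨_, _, _, hm⟩, _⟩ := hS _ h2
    obtain ⟨a, b, ⟨ha1, ha2, ha3, ha4⟩, _, _, ha, _, _, _, _, _⟩ := hS _ h2'
    simp only at *
    have := hm a p' (by omega) (by omega) ha2 ha3
    have h3 : p' = p + 1 := by omega
    exact cons p h (h3 ▸ h')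
  · intro q hq hPq
    by_cases h : ∀ τ ∈ S, τ.1 ≠ q
    · exact Or.inl ⟨rfl, h⟩
    · push Not at h
      obtain ⟨⟨p, j, l⟩, hτ, rfl⟩ := h
      refine Or.inr ⟨(p, j, l), hτ, ?_⟩
      obtain ⟨a, b, _, _, _, _, h1, h2, _, _, h3⟩ := hS _ hτ
      simp only at *
      have : ¬ j < p := fun h4 => hPq ⟨j, l, hτ, h4⟩
      omega
  · intro p h
    obtain ⟨_, _, _, h1, _, h2⟩ := shape p h
    refine Or.inr ⟨_, h2, ?_, rfl⟩
    show J p = p - (p - J p)
    omega

end Pool.Agent.helper82.PL
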