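import Pool.Agent.helper82.PL.Defs

/-!
# Loops and polynomial bounds
-/

namespace Pool.Agent.helper82.PL

@[simp] theorem reg_setReg (m : Mem) (x v y : ℕ) :
    (m.setReg x v).reg y = if y = x then v else m.reg y := by
  simp [Mem.setReg, Function.update_apply]

@[simp] theorem arr_setReg (m : Mem) (x v : ℕ) : (m.setReg x v).arr = m.arr := rfl

@[simp] theorem reg_setArr (m : Mem) (a i j k v : ℕ) : (m.setArr a i j k v).reg = m.reg := rfl

theorem arr_setArr (m : Mem) (a i j k v a' i' j' k' : ℕ) :
    (m.setArr a i j k v).arr a' i' j' k' =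
      if a' = a ∧ i' = i ∧ j' = j ∧ k' = k then v else m.arr a' i' j' k' := rfl

/-- Reasoning about loops. -/
theorem run_loop {x : ℕ} {b : Exp} {c : Cmd} {m : Mem} (I : Mem → Prop) (J : ℕ → Mem → Prop)
    (h0 : I m)
    (hI : ∀ i, i < b.val m → ∀ m', I m' →
      I (c.run (m'.setReg x i)) ∧ J i (c.run (m'.setReg x i)))
    (hJ : ∀ i, i < b.val m → ∀ j, ∀ m', I m' → J j m' → J j (c.run (m'.setReg x i))) :
    I ((Cmd.loop x b c).run m) ∧ ∀ i, i < b.val m → J i ((Cmd.loop x b c).run m) := by
  have key : ∀ t, t ≤ b.val m → I (iter x c.run m t) ∧ ∀ i, i < t → J i (iter x c.run m t) := by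
    intro t
    induction t with
    | zero => intro _; exact ⟨h0, fun i hi => absurd hi (Nat.not_lt_zero i)⟩
    | succ t ih =>
      intro ht
      obtain ⟨h1, h2⟩ := ih (by omega)
      obtain ⟨h3, h4⟩ := hI t (by omega) _ h1
      refine ⟨h3, fun i hi => ?_⟩
      rcases Nat.lt_succ_iff_lt_or_eq.1 hi with h | rfl
      · exact hJ t (by omega) i _ h1 (h2 i h)
      · exact h4
  exact key _ le_rfl

/-- Loops whose successive passes satisfy successive invariants. -/
theorem run_loop' {x : ℕ} {b : Exp} {c : Cmd} {m : Mem} (I : ℕ → Mem → Prop)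
    (h0 : I 0 m) (hI : ∀ i, i < b.val m → ∀ m', I i m' → I (i + 1) (c.run (m'.setReg x i))) :
    I (b.val m) ((Cmd.loop x b c).run m) := by
  have key : ∀ t, t ≤ b.val m → I t (iter x c.run m t) := by
    intro t
    induction t with
    | zero => intro _; exact h0
    | succ t ih => intro ht; exact hI t (by omega) _ (ih (by omega))
  exact key _ le_rfl

/-! ### Polynomial bounds -/

/-- All the numbers in the memory are bounded. -/
def Bdd (N : ℕ) (m : Mem) : Prop := (∀ x, m.reg x ≤ N) ∧ ∀ a i j k, m.arr a i j k ≤ N + 1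

theorem Bdd.setReg {N : ℕ} {m : Mem} (h : Bdd N m) {x v : ℕ} (hv : v ≤ N) :
    Bdd N (m.setReg x v) := by
  refine ⟨fun y => ?_, h.2⟩
  rw [reg_setReg]
  split_ifs
  · exact hv
  · exact h.1 y

theorem Bdd.setArr {N : ℕ} {m : Mem} (h : Bdd N m) {a i j k v : ℕ} (hv : v ≤ N + 1) :
    Bdd N (m.setArr a i j k v) := by
  refine ⟨h.1, fun a' i' j' k' => ?_⟩
  rw [arr_setArr]
  split_ifs
  · exact hv
  · exact h.2 _ _ _ _

/-- Polynomially bounded functions of the memory. -/
def PB (f : Mem → ℕ) : Prop := ∃ K k, ∀ N m, Bdd N m → f m ≤ K * (N + 2) ^ k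

theorem PB.mono {f g : Mem → ℕ} (hg : PB g) (h : ∀ m, f m ≤ g m) : PB f := by
  obtain ⟨K, k, hK⟩ := hg
  exact ⟨K, k, fun N m hm => (h m).trans (hK N m hm)⟩

theorem PB.const (c : ℕ) : PB fun _ => c := ⟨c, 0, fun _ _ _ => by simp⟩

theorem PB.add {f g : Mem → ℕ} (hf : PB f) (hg : PB g) : PB fun m => f m + g m := by
  obtain ⟨K, k, hK⟩ := hf
  obtain ⟨L, l, hL⟩ := hg
  refine ⟨K + L, k + l, fun N m hm => ?_⟩
  have h1 : K * (N + 2) ^ k ≤ K * (N + 2) ^ (k + l) :=
    Nat.mul_le_mul_left K (Nat.pow_le_pow_right (by omega) (by omega))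
  have h2 : L * (N + 2) ^ l ≤ L * (N + 2) ^ (k + l) :=
    Nat.mul_le_mul_left L (Nat.pow_le_pow_right (by omega) (by omega))
  have h3 := hK N m hm
  have h4 := hL N m hm
  show f m + g m ≤ _
  rw [add_mul]
  omega

theorem PB.reg (x : ℕ) : PB fun m => m.reg x :=
  ⟨1, 1, fun N m hm => by have := hm.1 x; simp only [pow_one]; omega⟩

theorem PB.arr (a : ℕ) (i j k : Mem → ℕ) : PB fun m => m.arr a (i m) (j m) (k m) :=
  ⟨1, 1, fun N m hm => by have := hm.2 a (i m) (j m) (k m); simp only [pow_one]; omega⟩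

/-- Sums over bounded ranges. -/
theorem PB.sum {x : ℕ} {g : ℕ → Mem → ℕ} (hg : ∃ K k, ∀ N m, Bdd N m → ∀ i, i < m.reg x →
    g i m ≤ K * (N + 2) ^ k) : PB fun m => ∑ i ∈ Finset.range (m.reg x), g i m := by
  obtain ⟨K, k, hK⟩ := hg
  refine ⟨K, k + 1, fun N m hm => ?_⟩
  calc ∑ i ∈ Finset.range (m.reg x), g i m
      ≤ ∑ _i ∈ Finset.range (m.reg x), K * (N + 2) ^ k :=
        Finset.sum_le_sum fun i hi => hK N m hm i (Finset.mem_range.1 hi)
    _ = m.reg x * (K * (N + 2) ^ k) := by rw [Finset.sum_const, Finset.card_range, smul_eq_mul]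
    _ ≤ (N + 2) * (K * (N + 2) ^ k) :=
        Nat.mul_le_mul_right _ ((hm.1 x).trans (by omega))
    _ = K * (N + 2) ^ (k + 1) := by rw [pow_succ]; ring

theorem Exp.pb_val (e : Exp) : PB fun m => e.val m := by
  induction e with
  | lit c => exact PB.const c
  | reg x => exact PB.reg x
  | cell a i j k _ _ _ => exact PB.arr a _ _ _
  | add s t h1 h2 => exact h1.add h2

theorem Exp.pb_cost (e : Exp) : PB fun m => e.cost m := by
  induction e with
  | lit c => exact PB.const (c + 1)
  | reg x => exact ((PB.const x).add (PB.reg x)).add (PB.const 1)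
  | cell a i j k h1 h2 h3 =>
    exact (((((PB.const a).add h1).add h2).add h3).add (PB.arr a _ _ _)).add (PB.const 1)
  | add s t h1 h2 => exact ((h1.add h2).add (s.pb_val.add t.pb_val)).add (PB.const 1)

/-- All the bounds of the searches are registers. -/
def Test.ok : Test → Bool
  | .eq _ _ => true
  | .lt _ _ => true
  | .not φ => φ.ok
  | .and φ ψ => φ.ok && ψ.ok
  | .ex _ (.reg _) φ => φ.ok
  | .ex _ _ _ => false

theorem Test.pb {φ : Test} (h : φ.ok = true) : PB fun m => φ.cost m := by
  induction φ with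
  | eq s t => exact (s.pb_cost.add t.pb_cost).add (PB.const 1)
  | lt s t => exact (s.pb_cost.add t.pb_cost).add (PB.const 1)
  | not φ ih => exact (ih h).add (PB.const 1)
  | and φ ψ ih1 ih2 =>
    simp only [Test.ok, Bool.and_eq_true] at h
    exact ((ih1 h.1).add (ih2 h.2)).add (PB.const 1)
  | ex x b φ ih =>
    cases b with
    | lit c => simp [Test.ok] at h
    | cell a i j k => simp [Test.ok] at h
    | add s t => simp [Test.ok] at h
    | reg y =>
      obtain ⟨K, k, hK⟩ := ih h
      have h1 : PB fun m => ∑ i ∈ Finset.range (m.reg y), (i + 1 + φ.cost (m.setReg x i)) := by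
        refine PB.sum ⟨1 + K, k + 1, fun N m hm i hi => ?_⟩
        have h2 : φ.cost (m.setReg x i) ≤ K * (N + 2) ^ k :=
          hK N (m.setReg x i) (hm.setReg (by have := hm.1 y; omega))
        have h3 : i + 1 ≤ (N + 2) ^ (k + 1) := by
          calc i + 1 ≤ N + 2 := by have := hm.1 y; omega
            _ = (N + 2) ^ 1 := (pow_one _).symm
            _ ≤ (N + 2) ^ (k + 1) := Nat.pow_le_pow_right (by omega) (by omega)
        have h4 : K * (N + 2) ^ k ≤ K * (N + 2) ^ (k + 1) :=
          Nat.mul_le_mul_left K (Nat.pow_le_pow_right (by omega) (by omega))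
        rw [add_mul, one_mul]
        omega
      exact (((PB.const x).add (Exp.reg y).pb_cost).add (PB.const 1)).add h1

/-- The value of the expression is at most one more than the numbers in the memory. -/
def Exp.small : Exp → Bool
  | .lit c => decide (c ≤ 1)
  | .add (.reg _) (.lit 1) => true
  | _ => false

theorem Exp.small_val {e : Exp} (h : e.small = true) {N : ℕ} {m : Mem} (hm : Bdd N m) :
    e.val m ≤ N + 1 := by
  match e, h with
  | .lit c, h =>
    simp only [Exp.small, decide_eq_true_eq] at h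
    show c ≤ N + 1
    omega
  | .add (.reg x) (.lit 1), _ =>
    show m.reg x + 1 ≤ N + 1
    have := hm.1 x
    omega

/-- All the bounds of the loops and searches are registers, and only small numbers are written. -/
def Cmd.ok : Cmd → Bool
  | .put _ _ _ _ t => t.small
  | .seq c d => c.ok && d.ok
  | .cond φ c => φ.ok && c.ok
  | .loop _ (.reg _) c => c.ok
  | .loop _ _ _ => false

theorem Cmd.bdd {c : Cmd} (h : c.ok = true) {N : ℕ} : ∀ {m : Mem}, Bdd N m → Bdd N (c.run m) := by
  induction c with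
  | put a i j k t => intro m hm; exact hm.setArr (Exp.small_val h hm)
  | seq c d ih1 ih2 =>
    intro m hm
    simp only [Cmd.ok, Bool.and_eq_true] at h
    exact ih2 h.2 (ih1 h.1 hm)
  | cond φ c ih =>
    intro m hm
    simp only [Cmd.ok, Bool.and_eq_true] at h
    unfold Cmd.run
    split_ifs
    · exact ih h.2 hm
    · exact hm
  | loop x b c ih =>
    intro m hm
    cases b with
    | lit c => simp [Cmd.ok] at h
    | cell a i j k => simp [Cmd.ok] at h
    | add s t => simp [Cmd.ok] at h
    | reg y =>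
      have := run_loop' (x := x) (b := .reg y) (c := c) (m := m) (fun _ m' => Bdd N m') hm
        (fun i hi m' hm' => ih h (hm'.setReg (by
          have h1 : i < m.reg y := hi
          have := hm.1 y
          omega)))
      exact this

theorem iter_bdd {x : ℕ} {c : Cmd} (h : c.ok = true) {N : ℕ} {m : Mem} (hm : Bdd N m) :
    ∀ i, i ≤ N + 1 → Bdd N (iter x c.run m i) := by
  intro i
  induction i with
  | zero => intro _; exact hm
  | succ i ih => intro hi; exact Cmd.bdd h ((ih (by omega)).setReg (by omega))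

theorem Cmd.pb {c : Cmd} (h : c.ok = true) : PB fun m => c.cost m := by
  induction c with
  | put a i j k t =>
    exact (((((PB.const a).add i.pb_cost).add j.pb_cost).add k.pb_cost).add t.pb_cost).add
      (PB.const 1)
  | seq c d ih1 ih2 =>
    simp only [Cmd.ok, Bool.and_eq_true] at h
    obtain ⟨K, k, hK⟩ := ih2 h.2
    have h1 : PB fun m => d.cost (c.run m) := ⟨K, k, fun N m hm => hK N _ (Cmd.bdd h.1 hm)⟩
    exact ((ih1 h.1).add h1).add (PB.const 1)
  | cond φ c ih =>
    simp only [Cmd.ok, Bool.and_eq_true] at h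
    refine (((Test.pb h.1).add (ih h.2)).add (PB.const 1)).mono fun m => ?_
    simp only [Cmd.cost]
    split_ifs <;> omega
  | loop x b c ih =>
    cases b with
    | lit c => simp [Cmd.ok] at h
    | cell a i j k => simp [Cmd.ok] at h
    | add s t => simp [Cmd.ok] at h
    | reg y =>
      obtain ⟨K, k, hK⟩ := ih h
      have h1 : PB fun m => ∑ i ∈ Finset.range (m.reg y),
          (i + 1 + c.cost ((iter x c.run m i).setReg x i)) := by
        refine PB.sum ⟨1 + K, k + 1, fun N m hm i hi => ?_⟩
        have hN := hm.1 y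
        have hc : c.ok = true := h
        have h2 : c.cost ((iter x c.run m i).setReg x i) ≤ K * (N + 2) ^ k :=
          hK N ((iter x c.run m i).setReg x i) ((iter_bdd hc hm i (by omega)).setReg (by omega))
        have h3 : i + 1 ≤ (N + 2) ^ (k + 1) := by
          calc i + 1 ≤ N + 2 := by omega
            _ = (N + 2) ^ 1 := (pow_one _).symm
            _ ≤ (N + 2) ^ (k + 1) := Nat.pow_le_pow_right (by omega) (by omega)
        have h4 : K * (N + 2) ^ k ≤ K * (N + 2) ^ (k + 1) :=
          Nat.mul_le_mul_left K (Nat.pow_le_pow_right (by omega) (by omega))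
        rw [add_mul, one_mul]
        omega
      exact (((PB.const x).add (Exp.reg y).pb_cost).add (PB.const 1)).add h1

end Pool.Agent.helper82.PL
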