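import Pool.Agent.helper82.PL.Rule
import Pool.Agent.helper82.PL.Lang

/-!
# The program and its correctness
-/

namespace Pool.Agent.helper82.PL

/-- Disjunction. -/
def Test.or (φ ψ : Test) : Test := .not (.and (.not φ) (.not ψ))

/-- Bounded universal quantification. -/
def Test.all (x : ℕ) (b : Exp) (φ : Test) : Test := .not (.ex x b (.not φ))

/-- The registers `u` and `v` hold adjacent vertices. -/
def tAdj (u v : ℕ) : Test :=
  .ex 11 (.reg 1) (.or
    (.and (.eq (.cell 0 (.reg 11) (.lit 0) (.lit 0)) (.reg u))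
      (.eq (.cell 0 (.reg 11) (.lit 1) (.lit 0)) (.reg v)))
    (.and (.eq (.cell 0 (.reg 11) (.lit 0) (.lit 0)) (.reg v))
      (.eq (.cell 0 (.reg 11) (.lit 1) (.lit 0)) (.reg u))))

/-- The array `1` holds the distances plus one. -/
def eDist (u v : ℕ) : Exp := .cell 1 (.reg u) (.reg v) (.lit 0)

/-- The test in the computation of the distances. -/
def tDist : Test :=
  .and (.eq (eDist 3 4) (.lit 0)) (.or (.and (.eq (.reg 2) (.lit 0)) (.eq (.reg 3) (.reg 4)))
    (.ex 12 (.reg 0) (.and (tAdj 12 4)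
      (.and (.lt (.lit 0) (eDist 3 12)) (.eq (eDist 3 12) (.reg 2))))))

/-- The computation of the distances. -/
def cDist : Cmd :=
  .loop 2 (.reg 0) (.loop 3 (.reg 0) (.loop 4 (.reg 0)
    (.cond tDist (.put 1 (.reg 3) (.reg 4) (.lit 0) (.add (.reg 2) (.lit 1))))))

/-- The vertex `z` is between `s` and `t`. -/
def tBtw (s t z : ℕ) : Test := .eq (.add (eDist s z) (eDist z t)) (.add (eDist s t) (.lit 1))

/-- The vertex `z` is on the side of `y` of the edge `{x, y}`. -/
def tCmp (x y z : ℕ) : Test := .lt (eDist z y) (eDist z x)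

/-- The test for `Step`. -/
def tStep (C : ℕ → Test) : Test :=
  .or (.all 10 (.reg 0) (.or (.not (C 10)) (tBtw 6 7 10)))
    (.ex 8 (.reg 0) (.ex 9 (.reg 0) (.and (tAdj 8 9) (.and (C 9) (.and (tBtw 6 7 8)
      (.and (.not (tBtw 6 7 9)) (.and (.not (.eq (.reg 8) (.reg 7)))
        (.and (.eq (.cell 2 (.reg 8) (.reg 9) (eDist 8 7)) (.lit 1))
          (.all 10 (.reg 0) (.or (.not (C 10)) (.or (tBtw 6 7 10) (tCmp 8 9 10))))))))))))

/-- The test for `Rule`. -/
def tRule : Test :=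
  .and (tAdj 3 4) (.ex 6 (.reg 0) (.ex 7 (.reg 0) (.and (tCmp 3 4 6) (.and (tCmp 3 4 7)
    (.and (tBtw 6 7 4) (.and (.eq (eDist 6 4) (.add (.reg 5) (.lit 1))) (tStep (tCmp 3 4))))))))

/-- The dynamic program. -/
def cRule : Cmd :=
  .loop 2 (.reg 0) (.loop 3 (.reg 0) (.loop 4 (.reg 0) (.loop 5 (.reg 0)
    (.cond tRule (.put 2 (.reg 3) (.reg 4) (.add (.reg 5) (.lit 1)) (.lit 1))))))

/-- The final test. -/
def cTop : Cmd :=
  .cond (.ex 6 (.reg 0) (.ex 7 (.reg 0) (tStep fun _ => .eq (.lit 0) (.lit 0))))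
    (.put 3 (.lit 0) (.lit 0) (.lit 0) (.lit 1))

/-- The program. -/
def program : Cmd := .seq cDist (.seq cRule cTop)

theorem program_ok : program.ok = true := rfl

/-! ### Semantics of the tests -/

theorem holds_or {φ ψ : Test} {m : Mem} : (φ.or ψ).holds m ↔ φ.holds m ∨ ψ.holds m := by
  simp only [Test.or, Test.holds]
  tauto

theorem holds_and {φ ψ : Test} {m : Mem} : (Test.and φ ψ).holds m ↔ φ.holds m ∧ ψ.holds m :=
  Iff.rfl

theorem holds_not {φ : Test} {m : Mem} : (Test.not φ).holds m ↔ ¬ φ.holds m := Iff.rfl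

theorem run_cond_pos {φ : Test} {c : Cmd} {m : Mem} (h : φ.holds m) :
    (Cmd.cond φ c).run m = c.run m := by
  simp only [Cmd.run]
  rw [if_pos h]

theorem run_cond_neg {φ : Test} {c : Cmd} {m : Mem} (h : ¬ φ.holds m) :
    (Cmd.cond φ c).run m = m := by
  simp only [Cmd.run]
  rw [if_neg h]

variable {n : ℕ}

theorem holds_ex {φ : Test} {m : Mem} {x : ℕ} (hm : m.reg 0 = n) :
    (Test.ex x (.reg 0) φ).holds m ↔ ∃ a : Fin n, φ.holds (m.setReg x a) := by
  simp only [Test.holds, Exp.val, hm]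
  constructor
  · rintro ⟨i, hi, h⟩
    exact ⟨⟨i, hi⟩, h⟩
  · rintro ⟨a, h⟩
    exact ⟨a, a.2, h⟩

theorem holds_all {φ : Test} {m : Mem} {x : ℕ} (hm : m.reg 0 = n) :
    (Test.all x (.reg 0) φ).holds m ↔ ∀ a : Fin n, φ.holds (m.setReg x a) := by
  unfold Test.all
  rw [holds_not, holds_ex hm]
  simp only [holds_not, not_exists, not_not]

/-- The input is intact. -/
def Core (E : List (Fin n × Fin n)) (m : Mem) : Prop :=
  m.reg 0 = n ∧ m.reg 1 = E.length ∧ m.arr 0 = (input n E).arr 0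

theorem Core.setReg {E : List (Fin n × Fin n)} {m : Mem} (h : Core E m) {x v : ℕ} (hx : 2 ≤ x) :
    Core E (m.setReg x v) := by
  refine ⟨?_, ?_, h.2.2⟩
  · rw [reg_setReg, if_neg (by omega)]; exact h.1
  · rw [reg_setReg, if_neg (by omega)]; exact h.2.1

theorem Core.setArr {E : List (Fin n × Fin n)} {m : Mem} (h : Core E m) {a i j k v : ℕ}
    (ha : a ≠ 0) : Core E (m.setArr a i j k v) := by
  refine ⟨h.1, h.2.1, ?_⟩
  rw [← h.2.2]
  funext i' j' k'
  rw [arr_setArr, if_neg (by rintro ⟨rfl, _⟩; exact ha rfl)]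

variable {T : SimpleGraph (Fin n)} {E : List (Fin n × Fin n)}

theorem holds_adj (hE : ListsEdges T E) {m : Mem} (hm : Core E m) {u v : ℕ} {a b : Fin n}
    (hu : m.reg u = a) (hv : m.reg v = b) (hu' : u ≠ 11) (hv' : v ≠ 11) :
    (tAdj u v).holds m ↔ T.Adj a b := by
  rw [hE a b]
  unfold tAdj
  simp only [Test.or, Test.holds, Exp.val, reg_setReg, arr_setReg, hm.2.1, hm.2.2, hu, hv, hu',
    hv', if_true, if_false]
  constructor
  · rintro ⟨i, hi, h⟩
    have hi' : E[i]? = some E[i] := List.getElem?_eq_getElem hi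
    simp [input, hi'] at h
    have hmem : E[i] ∈ E := List.getElem_mem hi
    by_cases h1 : (E[i].1 : ℕ) = a ∧ (E[i].2 : ℕ) = b
    · left
      have : E[i] = (a, b) := Prod.ext (Fin.ext h1.1) (Fin.ext h1.2)
      rwa [this] at hmem
    · right
      have h2 : (E[i].1 : ℕ) = b ∧ (E[i].2 : ℕ) = a := by
        by_contra h2
        exact absurd h (by tauto)
      have : E[i] = (b, a) := Prod.ext (Fin.ext h2.1) (Fin.ext h2.2)
      rwa [this] at hmem
  · rintro (h | h)
    · obtain ⟨i, hi, hi'⟩ := List.mem_iff_getElem.1 h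
      refine ⟨i, hi, ?_⟩
      have hi'' : E[i]? = some E[i] := List.getElem?_eq_getElem hi
      simp [input, hi'', hi']
    · obtain ⟨i, hi, hi'⟩ := List.mem_iff_getElem.1 h
      refine ⟨i, hi, ?_⟩
      have hi'' : E[i]? = some E[i] := List.getElem?_eq_getElem hi
      simp [input, hi'', hi']

/-- The array `1` holds the distances. -/
def DistOK (T : SimpleGraph (Fin n)) (m : Mem) : Prop :=
  ∀ a b : Fin n, m.arr 1 a b 0 = T.dist a b + 1

theorem holds_btw {m : Mem} (hm : DistOK T m) {s t z : ℕ} {a b c : Fin n} (hs : m.reg s = a)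
    (ht : m.reg t = b) (hz : m.reg z = c) : (tBtw s t z).holds m ↔ Btw T a b c := by
  simp only [tBtw, Test.holds, eDist, Exp.val, hs, ht, hz, hm a b, hm a c, hm c b, Btw]
  omega

theorem holds_cmp {m : Mem} (hm : DistOK T m) {x y z : ℕ} {a b c : Fin n} (hx : m.reg x = a)
    (hy : m.reg y = b) (hz : m.reg z = c) : (tCmp x y z).holds m ↔ Cmp T a b c := by
  simp only [tCmp, Test.holds, eDist, Exp.val, hx, hy, hz, hm c a, hm c b, Cmp]
  omega

/-- The relation held in the array `2`. -/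
def Dm (m : Mem) (x y : Fin n) (d : ℕ) : Prop := m.arr 2 x y (d + 1) = 1

theorem holds_step (hE : ListsEdges T E) {m : Mem} (hm : Core E m) (hd : DistOK T m)
    {C : ℕ → Test} {C' : Fin n → Prop}
    (hC : ∀ m' : Mem, m'.arr = m.arr → (∀ r, r < 6 → m'.reg r = m.reg r) → ∀ (z : ℕ) (a : Fin n),
      m'.reg z = a → ((C z).holds m' ↔ C' a))
    {s t : Fin n} (hs : m.reg 6 = s) (ht : m.reg 7 = t) :
    (tStep C).holds m ↔ Step T C' (Dm m) s t := by
  unfold tStep Step
  rw [holds_or, holds_all hm.1, holds_ex hm.1]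
  refine or_congr (forall_congr' fun a => ?_) (exists_congr fun x => ?_)
  · have hd1 : DistOK T (m.setReg 10 a) := hd
    rw [holds_or, holds_not, hC (m.setReg 10 a) rfl (fun r hr => by
      rw [reg_setReg, if_neg (by omega)]) 10 a (by simp),
      holds_btw hd1 (a := s) (b := t) (c := a) (by simp [hs]) (by simp [ht]) (by simp)]
    tauto
  · have hm1 : Core E (m.setReg 8 x) := hm.setReg (by omega)
    rw [holds_ex hm1.1]
    refine exists_congr fun y => ?_
    set m2 := (m.setReg 8 x).setReg 9 y with hm2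
    have hc2 : Core E m2 := hm1.setReg (by omega)
    have hd2 : DistOK T m2 := hd
    have r6 : m2.reg 6 = s := by simp [hm2, hs]
    have r7 : m2.reg 7 = t := by simp [hm2, ht]
    have r8 : m2.reg 8 = x := by simp [hm2]
    have r9 : m2.reg 9 = y := by simp [hm2]
    simp only [holds_and, holds_not]
    rw [holds_adj hE hc2 r8 r9 (by omega) (by omega),
      hC m2 rfl (fun r hr => by
        rw [hm2, reg_setReg, if_neg (by omega), reg_setReg, if_neg (by omega)]) 9 y r9,
      holds_btw hd2 r6 r7 r8, holds_btw hd2 r6 r7 r9, holds_all hc2.1]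
    refine and_congr_right fun _ => and_congr_right fun _ => and_congr_right fun _ =>
      and_congr_right fun _ => and_congr ?_ (and_congr ?_ (forall_congr' fun z => ?_))
    · simp only [Test.holds, Exp.val, r8, r7]
      exact not_congr ⟨fun h => Fin.ext h, fun h => congrArg Fin.val h⟩
    · simp only [Test.holds, Exp.val, eDist, r8, r7, r9]
      rw [hd2 x t]
      exact Iff.rfl
    · have hd3 : DistOK T (m2.setReg 10 z) := hd2
      rw [holds_or, holds_not, holds_or,
        hC (m2.setReg 10 z) rfl (fun r hr => by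
          rw [reg_setReg, if_neg (by omega), hm2, reg_setReg, if_neg (by omega), reg_setReg,
            if_neg (by omega)]) 10 z (by simp),
        holds_btw hd3 (a := s) (b := t) (c := z) (by simp [r6]) (by simp [r7]) (by simp),
        holds_cmp hd3 (a := x) (b := y) (c := z) (by simp [r8]) (by simp [r9]) (by simp)]
      tauto

theorem holds_rule (hE : ListsEdges T E) {m : Mem} (hm : Core E m) (hd : DistOK T m)
    {x y : Fin n} {d : ℕ} (hx : m.reg 3 = x) (hy : m.reg 4 = y) (hd' : m.reg 5 = d) :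
    tRule.holds m ↔ Rule T (Dm m) x y d := by
  unfold tRule Rule
  rw [holds_and, holds_adj hE hm hx hy (by omega) (by omega), holds_ex hm.1]
  refine and_congr_right fun _ => exists_congr fun s => ?_
  have hm1 : Core E (m.setReg 6 s) := hm.setReg (by omega)
  rw [holds_ex hm1.1]
  refine exists_congr fun t => ?_
  set m2 := (m.setReg 6 s).setReg 7 t with hm2
  have hc2 : Core E m2 := hm1.setReg (by omega)
  have hd2 : DistOK T m2 := hd
  have r3 : m2.reg 3 = x := by simp [hm2, hx]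
  have r4 : m2.reg 4 = y := by simp [hm2, hy]
  have r5 : m2.reg 5 = d := by simp [hm2, hd']
  have r6 : m2.reg 6 = s := by simp [hm2]
  have r7 : m2.reg 7 = t := by simp [hm2]
  simp only [holds_and]
  rw [holds_cmp hd2 r3 r4 r6, holds_cmp hd2 r3 r4 r7, holds_btw hd2 r6 r7 r4,
    holds_step hE hc2 hd2 (C' := Cmp T x y) (fun m' h1 h2 z a hz => by
      have hd3 : DistOK T m' := by
        intro a b
        rw [h1]
        exact hd2 a b
      exact holds_cmp hd3 ((h2 3 (by omega)).trans r3) ((h2 4 (by omega)).trans r4) hz) r6 r7]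
  refine and_congr_right fun _ => and_congr_right fun _ => and_congr_right fun _ =>
    and_congr ?_ Iff.rfl
  simp only [Test.holds, Exp.val, eDist, r6, r4, r5]
  rw [hd2 s y]
  omega

/-! ### The computation of the distances -/

theorem dist_lt (hT : T.IsTree) (a b : Fin n) : T.dist a b < n := by
  obtain ⟨p, hp, hl⟩ := hT.connected.exists_path_of_dist a b
  have := hp.length_lt
  rw [Fintype.card_fin] at this
  omega

/-- The invariant before round `r`. -/
def InvD (T : SimpleGraph (Fin n)) (E : List (Fin n × Fin n)) (r : ℕ) (m : Mem) : Prop :=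
  Core E m ∧ (∀ i j k, m.arr 2 i j k = 0) ∧ (∀ i j k, m.arr 3 i j k = 0) ∧
    ∀ a b : Fin n, m.arr 1 a b 0 = if T.dist a b < r then T.dist a b + 1 else 0

/-- The invariant during round `r`. -/
def MidD (T : SimpleGraph (Fin n)) (E : List (Fin n × Fin n)) (r : ℕ) (m : Mem) : Prop :=
  Core E m ∧ (∀ i j k, m.arr 2 i j k = 0) ∧ (∀ i j k, m.arr 3 i j k = 0) ∧ m.reg 2 = r ∧
    ∀ a b : Fin n, (T.dist a b < r → m.arr 1 a b 0 = T.dist a b + 1) ∧
      (r < T.dist a b → m.arr 1 a b 0 = 0) ∧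
      (T.dist a b = r → m.arr 1 a b 0 = 0 ∨ m.arr 1 a b 0 = r + 1)

theorem MidD.setReg {r : ℕ} {m : Mem} (h : MidD T E r m) {x v : ℕ} (hx : 3 ≤ x) :
    MidD T E r (m.setReg x v) := by
  refine ⟨h.1.setReg (by omega), h.2.1, h.2.2.1, ?_, h.2.2.2.2⟩
  rw [reg_setReg, if_neg (by omega)]
  exact h.2.2.2.1

theorem stepD (hT : T.IsTree) (hE : ListsEdges T E) {r : ℕ} {m : Mem} (hm : MidD T E r m)
    {a b : Fin n} (ha : m.reg 3 = a) (hb : m.reg 4 = b) :
    let m' := (Cmd.cond tDist
      (.put 1 (.reg 3) (.reg 4) (.lit 0) (.add (.reg 2) (.lit 1)))).run m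
    MidD T E r m' ∧ m'.reg = m.reg ∧ (T.dist a b = r → m'.arr 1 a b 0 = r + 1) ∧
      ∀ a' b' : Fin n, m.arr 1 a' b' 0 = r + 1 → m'.arr 1 a' b' 0 = r + 1 := by
  obtain ⟨h1, h2, h3, h4, h5⟩ := hm
  have ht : tDist.holds m ↔ m.arr 1 a b 0 = 0 ∧ ((r = 0 ∧ a = b) ∨
      ∃ c : Fin n, T.Adj c b ∧ 0 < m.arr 1 a c 0 ∧ m.arr 1 a c 0 = r) := by
    unfold tDist
    rw [holds_and, holds_or, holds_and, holds_ex h1.1]
    refine and_congr ?_ (or_congr ?_ (exists_congr fun c => ?_))
    · simp only [Test.holds, Exp.val, eDist, ha, hb]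
    · simp only [Test.holds, Exp.val, ha, hb, h4]
      exact and_congr_right fun _ => ⟨fun h => Fin.ext h, fun h => congrArg Fin.val h⟩
    · rw [holds_and, holds_adj hE (h1.setReg (by omega)) (a := c) (b := b) (by simp)
        (by simp [hb]) (by omega) (by omega)]
      simp only [Test.holds, Exp.val, eDist, reg_setReg, arr_setReg, ha, h4]
      simp
  have hcomm : ∀ u v : Fin n, T.dist u v = T.dist v u := fun u v => SimpleGraph.dist_comm
  have ht1 : tDist.holds m → T.dist a b = r := by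
    intro h
    obtain ⟨h6, h7⟩ := ht.1 h
    have h8 : r ≤ T.dist a b := by
      by_contra hcon
      have := (h5 a b).1 (by omega)
      omega
    rcases h7 with ⟨rfl, rfl⟩ | ⟨c, hc1, hc2, hc3⟩
    · exact SimpleGraph.dist_self
    · have h9 : T.dist a c + 1 = r := by
        rcases Nat.lt_trichotomy (T.dist a c) r with h | h | h
        · have := (h5 a c).1 h
          omega
        · have := (h5 a c).2.2 h
          omega
        · have := (h5 a c).2.1 h
          omega
      have h10 := tri hT a c b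
      have h11 : T.dist c b = 1 := SimpleGraph.dist_eq_one_iff_adj.2 hc1
      omega
  have ht2 : T.dist a b = r → m.arr 1 a b 0 = 0 → tDist.holds m := by
    intro h6 h7
    rw [ht]
    refine ⟨h7, ?_⟩
    by_cases hab : a = b
    · left
      refine ⟨?_, hab⟩
      rw [← h6, hab]
      exact SimpleGraph.dist_self
    · right
      obtain ⟨c, hc1, hc2⟩ := exists_closer hT (z := b) (y := a) (Ne.symm hab)
      rw [hcomm c a, hcomm b a] at hc2
      have h8 := (h5 a c).1 (by omega)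
      exact ⟨c, hc1.symm, by omega, by omega⟩
  intro m'
  by_cases h : tDist.holds m
  · have hm' : m' = m.setArr 1 a b 0 (r + 1) := by
      show Cmd.run _ m = _
      rw [run_cond_pos h]
      simp only [Cmd.run, Exp.val, ha, hb, h4]
    have hv : ∀ a' b' : Fin n, m'.arr 1 a' b' 0 =
        if a' = a ∧ b' = b then r + 1 else m.arr 1 a' b' 0 := by
      intro a' b'
      rw [hm', arr_setArr]
      by_cases h6 : a' = a ∧ b' = b
      · rw [if_pos h6, if_pos ⟨rfl, congrArg Fin.val h6.1, congrArg Fin.val h6.2, rfl⟩]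
      · rw [if_neg h6, if_neg]
        rintro ⟨_, e1, e2, _⟩
        exact h6 ⟨Fin.ext e1, Fin.ext e2⟩
    refine ⟨⟨?_, ?_, ?_, ?_, ?_⟩, ?_, ?_, ?_⟩
    · rw [hm']; exact h1.setArr (by omega)
    · intro i j k
      rw [hm', arr_setArr, if_neg (by omega)]
      exact h2 i j k
    · intro i j k
      rw [hm', arr_setArr, if_neg (by omega)]
      exact h3 i j k
    · rw [hm']; exact h4
    · intro a' b'
      rw [hv]
      split_ifs with h6
      · obtain ⟨rfl, rfl⟩ := h6
        have := ht1 h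
        exact ⟨fun h => by omega, fun h => by omega, fun _ => Or.inr rfl⟩
      · exact h5 a' b'
    · rw [hm']; rfl
    · intro _
      rw [hv, if_pos ⟨rfl, rfl⟩]
    · intro a' b' h6
      rw [hv]
      split_ifs
      · rfl
      · exact h6
  · have hm' : m' = m := run_cond_neg h
    rw [hm']
    refine ⟨⟨h1, h2, h3, h4, h5⟩, rfl, fun h6 => ?_, fun _ _ h => h⟩
    rcases (h5 a b).2.2 h6 with h7 | h7
    · exact absurd (ht2 h6 h7) h
    · exact h7

theorem roundD (hT : T.IsTree) (hE : ListsEdges T E) {r : ℕ} {m : Mem} (hm : InvD T E r m) :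
    InvD T E (r + 1) ((Cmd.loop 3 (.reg 0) (.loop 4 (.reg 0) (.cond tDist
      (.put 1 (.reg 3) (.reg 4) (.lit 0) (.add (.reg 2) (.lit 1)))))).run (m.setReg 2 r)) := by
  obtain ⟨h1, h2, h3, h4⟩ := hm
  have hmid : MidD T E r (m.setReg 2 r) := by
    refine ⟨h1.setReg (by omega), h2, h3, by simp, fun a b => ?_⟩
    have h5 : (m.setReg 2 r).arr 1 a b 0 = if T.dist a b < r then T.dist a b + 1 else 0 := h4 a b
    rw [h5]
    exact ⟨fun h => if_pos h, fun h => if_neg (by omega), fun h => Or.inl (if_neg (by omega))⟩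
  have hval : (Exp.reg 0).val (m.setReg 2 r) = n := hmid.1.1
  have hloop := run_loop (x := 3) (b := .reg 0) (c := .loop 4 (.reg 0) (.cond tDist
      (.put 1 (.reg 3) (.reg 4) (.lit 0) (.add (.reg 2) (.lit 1))))) (m := m.setReg 2 r)
    (MidD T E r) (fun i m' => ∀ a b : Fin n, (a : ℕ) = i → T.dist a b = r →
      m'.arr 1 a b 0 = r + 1) hmid ?_ ?_
  · obtain ⟨h5, h6⟩ := hloop
    rw [hval] at h6
    refine ⟨h5.1, h5.2.1, h5.2.2.1, fun a b => ?_⟩
    obtain ⟨e1, e2, e3⟩ := h5.2.2.2.2 a b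
    rcases Nat.lt_trichotomy (T.dist a b) r with h | h | h
    · rw [if_pos (by omega)]; exact e1 h
    · rw [if_pos (by omega), h6 a a.2 a b rfl h, h]
    · rw [if_neg (by omega)]; exact e2 h
  · intro i hi m1 hm1
    rw [hval] at hi
    have hm1' : MidD T E r (m1.setReg 3 i) := hm1.setReg (by omega)
    have hval1 : (Exp.reg 0).val (m1.setReg 3 i) = n := hm1'.1.1
    have hloop := run_loop (x := 4) (b := .reg 0) (c := .cond tDist
        (.put 1 (.reg 3) (.reg 4) (.lit 0) (.add (.reg 2) (.lit 1)))) (m := m1.setReg 3 i)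
      (fun m' => MidD T E r m' ∧ m'.reg 3 = i) (fun j m' => ∀ a b : Fin n, (a : ℕ) = i →
        (b : ℕ) = j → T.dist a b = r → m'.arr 1 a b 0 = r + 1) ⟨hm1', by simp⟩ ?_ ?_
    · obtain ⟨h5, h6⟩ := hloop
      rw [hval1] at h6
      exact ⟨h5.1, fun a b hai hd => h6 b b.2 a b hai rfl hd⟩
    · rintro j hj m2 ⟨hm2, hi2⟩
      rw [hval1] at hj
      obtain ⟨c1, c2, c3, _⟩ := stepD hT hE (hm2.setReg (x := 4) (v := j) (by omega))
        (a := ⟨i, hi⟩) (b := ⟨j, hj⟩) (by simp [hi2]) (by simp)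
      refine ⟨⟨c1, ?_⟩, fun a b hai hbj hd => ?_⟩
      · rw [c2]; simp [hi2]
      · have : a = ⟨i, hi⟩ := Fin.ext hai
        subst this
        have : b = ⟨j, hj⟩ := Fin.ext hbj
        subst this
        exact c3 hd
    · rintro j hj j' m2 ⟨hm2, hi2⟩ hJ a b hai hbj hd
      rw [hval1] at hj
      obtain ⟨_, _, _, c4⟩ := stepD hT hE (hm2.setReg (x := 4) (v := j) (by omega))
        (a := ⟨i, hi⟩) (b := ⟨j, hj⟩) (by simp [hi2]) (by simp)
      exact c4 a b (hJ a b hai hbj hd)
  · intro i hi i' m1 hm1 hJ a b hai hd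
    rw [hval] at hi
    have hm1' : MidD T E r (m1.setReg 3 i) := hm1.setReg (by omega)
    have hval1 : (Exp.reg 0).val (m1.setReg 3 i) = n := hm1'.1.1
    have h5 := run_loop' (x := 4) (b := .reg 0) (c := .cond tDist
        (.put 1 (.reg 3) (.reg 4) (.lit 0) (.add (.reg 2) (.lit 1)))) (m := m1.setReg 3 i)
      (fun _ m' => (MidD T E r m' ∧ m'.reg 3 = i) ∧ m'.arr 1 a b 0 = r + 1)
      ⟨⟨hm1', by simp⟩, hJ a b hai hd⟩ ?_
    · exact h5.2
    · rintro j hj m2 ⟨⟨hm2, hi2⟩, hJ2⟩
      rw [hval1] at hj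
      obtain ⟨c1, c2, _, c4⟩ := stepD hT hE (hm2.setReg (x := 4) (v := j) (by omega))
        (a := ⟨i, hi⟩) (b := ⟨j, hj⟩) (by simp [hi2]) (by simp)
      refine ⟨⟨c1, ?_⟩, c4 a b hJ2⟩
      rw [c2]; simp [hi2]

theorem run_cDist (hT : T.IsTree) (hE : ListsEdges T E) :
    InvD T E n (cDist.run (input n E)) := by
  have h0 : InvD T E 0 (input n E) := by
    refine ⟨⟨rfl, rfl, rfl⟩, fun i j k => rfl, fun i j k => rfl, fun a b => ?_⟩
    rw [if_neg (by omega)]
    rfl
  exact run_loop' (x := 2) (b := .reg 0) (InvD T E) h0 fun i _ m' hm' => roundD hT hE hm'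

/-! ### The dynamic program -/

/-- The invariant before round `k`. -/
def InvR (T : SimpleGraph (Fin n)) (E : List (Fin n × Fin n)) (k : ℕ) (m : Mem) : Prop :=
  Core E m ∧ DistOK T m ∧ (∀ i j k, m.arr 3 i j k = 0) ∧
    (∀ (x y : Fin n) d, Dm m x y d → ∃ k, RR T k x y d) ∧
    ∀ (x y : Fin n) d, RR T k x y d → Dm m x y d

theorem InvR.setReg {k : ℕ} {m : Mem} (h : InvR T E k m) {x v : ℕ} (hx : 2 ≤ x) :
    InvR T E k (m.setReg x v) :=
  ⟨h.1.setReg hx, h.2.1, h.2.2.1, h.2.2.2.1, h.2.2.2.2⟩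

/-- The innermost step of the dynamic program. -/
def cIn : Cmd := .cond tRule (.put 2 (.reg 3) (.reg 4) (.add (.reg 5) (.lit 1)) (.lit 1))

theorem stepR (hT : T.IsTree) (hE : ListsEdges T E) {k : ℕ} {m : Mem} (hm : InvR T E k m)
    {x y : Fin n} {d : ℕ} (hx : m.reg 3 = x) (hy : m.reg 4 = y) (hd : m.reg 5 = d) :
    InvR T E k (cIn.run m) ∧ (cIn.run m).reg = m.reg ∧
      (RR T (k + 1) x y d → Dm (cIn.run m) x y d) ∧
      ∀ (x' y' : Fin n) d', Dm m x' y' d' → Dm (cIn.run m) x' y' d' := by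
  obtain ⟨h1, h2, h3, h4, h5⟩ := hm
  have ht := holds_rule hE h1 h2 hx hy hd
  by_cases h : tRule.holds m
  · have hm' : cIn.run m = m.setArr 2 x y (d + 1) 1 := by
      show Cmd.run (Cmd.cond _ _) m = _
      rw [run_cond_pos h]
      simp only [Cmd.run, Exp.val, hx, hy, hd]
    have hv : ∀ (x' y' : Fin n) d', Dm (cIn.run m) x' y' d' ↔
        (x' = x ∧ y' = y ∧ d' = d) ∨ Dm m x' y' d' := by
      intro x' y' d'
      unfold Dm
      rw [hm', arr_setArr]
      by_cases h6 : x' = x ∧ y' = y ∧ d' = d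
      · rw [if_pos ⟨rfl, congrArg Fin.val h6.1, congrArg Fin.val h6.2.1,
          congrArg (· + 1) h6.2.2⟩]
        exact ⟨fun _ => Or.inl h6, fun _ => rfl⟩
      · rw [if_neg (by
          rintro ⟨_, e1, e2, e3⟩
          exact h6 ⟨Fin.ext e1, Fin.ext e2, by omega⟩)]
        exact ⟨fun h7 => Or.inr h7, fun h7 => h7.resolve_left h6⟩
    refine ⟨⟨?_, ?_, ?_, ?_, ?_⟩, ?_, ?_, ?_⟩
    · rw [hm']; exact h1.setArr (by omega)
    · intro a b
      rw [hm', arr_setArr, if_neg (by omega)]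
      exact h2 a b
    · intro i j k
      rw [hm', arr_setArr, if_neg (by omega)]
      exact h3 i j k
    · intro x' y' d' h6
      rcases (hv x' y' d').1 h6 with ⟨rfl, rfl, rfl⟩ | h7
      · exact rule_sound hT ((ht.1 h).mono h4)
      · exact h4 _ _ _ h7
    · intro x' y' d' h6
      exact (hv x' y' d').2 (Or.inr (h5 _ _ _ h6))
    · rw [hm']; rfl
    · intro _
      exact (hv x y d).2 (Or.inl ⟨rfl, rfl, rfl⟩)
    · intro x' y' d' h6
      exact (hv x' y' d').2 (Or.inr h6)
  · have hm' : cIn.run m = m := run_cond_neg h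
    rw [hm']
    refine ⟨⟨h1, h2, h3, h4, h5⟩, rfl, fun h6 => ?_, fun _ _ _ h => h⟩
    exact absurd (ht.2 ((rule_complete hT h6).mono h5)) h

/-- The statement kept by the inner loops: `D` only grows. -/
theorem innerR (hT : T.IsTree) (hE : ListsEdges T E) {k : ℕ} {m : Mem} (hm : InvR T E k m)
    {x y : Fin n} (hx : m.reg 3 = x) (hy : m.reg 4 = y) :
    let m' := (Cmd.loop 5 (.reg 0) cIn).run m
    InvR T E k m' ∧ m'.reg 3 = x ∧ (∀ d, RR T (k + 1) x y d → Dm m' x y d) ∧
      ∀ (x' y' : Fin n) d', Dm m x' y' d' → Dm m' x' y' d' := by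
  intro m'
  have hval : (Exp.reg 0).val m = n := hm.1.1
  have hloop := run_loop (x := 5) (b := .reg 0) (c := cIn) (m := m)
    (fun m' => InvR T E k m' ∧ m'.reg 3 = x ∧ m'.reg 4 = y ∧
      ∀ (x' y' : Fin n) d', Dm m x' y' d' → Dm m' x' y' d')
    (fun d m' => RR T (k + 1) x y d → Dm m' x y d) ⟨hm, hx, hy, fun _ _ _ h => h⟩ ?_ ?_
  · obtain ⟨h5, h6⟩ := hloop
    rw [hval] at h6
    refine ⟨h5.1, h5.2.1, fun d hd => h6 d ?_ hd, h5.2.2.2⟩
    obtain ⟨_, Q, W, _, h7, _, h8, _⟩ := hd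
    have h9 := h7.length_le_card
    rw [Fintype.card_fin, List.length_append] at h9
    have h10 : d < Q.length := by
      by_contra hcon
      rw [List.getElem?_eq_none (by omega)] at h8
      exact absurd h8 (by simp)
    omega
  · rintro d hd m1 ⟨c1, c2, c3, c4⟩
    obtain ⟨e1, e2, e3, e4⟩ := stepR hT hE (c1.setReg (x := 5) (v := d) (by omega))
      (x := x) (y := y) (d := d) (by simp [c2]) (by simp [c3]) (by simp)
    refine ⟨⟨e1, ?_, ?_, fun x' y' d' h => e4 x' y' d' (c4 x' y' d' h)⟩, e3⟩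
    · rw [e2]; simp [c2]
    · rw [e2]; simp [c3]
  · rintro d hd d' m1 ⟨c1, c2, c3, c4⟩ hJ hR
    obtain ⟨e1, e2, e3, e4⟩ := stepR hT hE (c1.setReg (x := 5) (v := d) (by omega))
      (x := x) (y := y) (d := d) (by simp [c2]) (by simp [c3]) (by simp)
    exact e4 x y d' (hJ hR)

theorem midR (hT : T.IsTree) (hE : ListsEdges T E) {k : ℕ} {m : Mem} (hm : InvR T E k m)
    {x : Fin n} (hx : m.reg 3 = x) :
    let m' := (Cmd.loop 4 (.reg 0) (.loop 5 (.reg 0) cIn)).run m
    InvR T E k m' ∧ (∀ y d, RR T (k + 1) x y d → Dm m' x y d) ∧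
      ∀ (x' y' : Fin n) d', Dm m x' y' d' → Dm m' x' y' d' := by
  intro m'
  have hval : (Exp.reg 0).val m = n := hm.1.1
  have hloop := run_loop (x := 4) (b := .reg 0) (c := .loop 5 (.reg 0) cIn) (m := m)
    (fun m' => InvR T E k m' ∧ m'.reg 3 = x ∧
      ∀ (x' y' : Fin n) d', Dm m x' y' d' → Dm m' x' y' d')
    (fun i m' => ∀ y : Fin n, (y : ℕ) = i → ∀ d, RR T (k + 1) x y d → Dm m' x y d)
    ⟨hm, hx, fun _ _ _ h => h⟩ ?_ ?_
  · obtain ⟨h5, h6⟩ := hloop
    rw [hval] at h6
    exact ⟨h5.1, fun y d hd => h6 y y.2 y rfl d hd, h5.2.2⟩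
  · rintro i hi m1 ⟨c1, c2, c3⟩
    rw [hval] at hi
    obtain ⟨e1, e2, e3, e4⟩ := innerR hT hE (c1.setReg (x := 4) (v := i) (by omega))
      (x := x) (y := ⟨i, hi⟩) (by simp [c2]) (by simp)
    refine ⟨⟨e1, e2, fun x' y' d' h => e4 x' y' d' (c3 x' y' d' h)⟩, fun y hy => ?_⟩
    have : y = ⟨i, hi⟩ := Fin.ext hy
    subst this
    exact e3
  · rintro i hi i' m1 ⟨c1, c2, c3⟩ hJ y hy d hR
    rw [hval] at hi
    obtain ⟨e1, e2, e3, e4⟩ := innerR hT hE (c1.setReg (x := 4) (v := i) (by omega))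
      (x := x) (y := ⟨i, hi⟩) (by simp [c2]) (by simp)
    exact e4 x y d (hJ y hy d hR)

theorem roundR (hT : T.IsTree) (hE : ListsEdges T E) {k : ℕ} {m : Mem} (hm : InvR T E k m) :
    InvR T E (k + 1) ((Cmd.loop 3 (.reg 0) (.loop 4 (.reg 0) (.loop 5 (.reg 0) cIn))).run m) := by
  have hval : (Exp.reg 0).val m = n := hm.1.1
  have hloop := run_loop (x := 3) (b := .reg 0)
    (c := .loop 4 (.reg 0) (.loop 5 (.reg 0) cIn)) (m := m) (InvR T E k)
    (fun i m' => ∀ x : Fin n, (x : ℕ) = i → ∀ y d, RR T (k + 1) x y d → Dm m' x y d) hm ?_ ?_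
  · obtain ⟨h5, h6⟩ := hloop
    rw [hval] at h6
    exact ⟨h5.1, h5.2.1, h5.2.2.1, h5.2.2.2.1, fun x y d h => h6 x x.2 x rfl y d h⟩
  · intro i hi m1 c1
    rw [hval] at hi
    obtain ⟨e1, e2, e3⟩ := midR hT hE (c1.setReg (x := 3) (v := i) (by omega))
      (x := ⟨i, hi⟩) (by simp)
    refine ⟨e1, fun x hx => ?_⟩
    have : x = ⟨i, hi⟩ := Fin.ext hx
    subst this
    exact e2
  · intro i hi i' m1 c1 hJ x hx y d hR
    rw [hval] at hi
    obtain ⟨e1, e2, e3⟩ := midR hT hE (c1.setReg (x := 3) (v := i) (by omega))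
      (x := ⟨i, hi⟩) (by simp)
    exact e3 x y d (hJ x hx y d hR)

theorem run_cRule (hT : T.IsTree) (hE : ListsEdges T E) {m : Mem} (hm : InvD T E n m) :
    InvR T E n (cRule.run m) := by
  obtain ⟨h1, h2, h3, h4⟩ := hm
  have h0 : InvR T E 0 m := by
    refine ⟨h1, fun a b => ?_, h3, fun x y d h => ?_, fun x y d h => ?_⟩
    · rw [h4, if_pos (dist_lt hT a b)]
    · unfold Dm at h
      rw [h2] at h
      exact absurd h (by omega)
    · obtain ⟨_, Q, W, h5, _, _, _, h6⟩ := h
      have := List.length_pos_of_ne_nil h5.ne_nil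
      rw [List.length_append] at h6
      omega
  have hval : (Exp.reg 0).val m = n := h1.1
  have := run_loop' (x := 2) (b := .reg 0)
    (c := .loop 3 (.reg 0) (.loop 4 (.reg 0) (.loop 5 (.reg 0) cIn))) (m := m)
    (InvR T E) h0 fun i _ m' hm' => roundR hT hE (hm'.setReg (by omega))
  rw [hval] at this
  exact this

/-- The program decides whether the tree is path-like. -/
theorem program_correct (hT : T.IsTree) (hE : ListsEdges T E) :
    program.accepts (input n E) ↔ PathLike T := by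
  have h := run_cRule hT hE (run_cDist hT hE)
  set m := cRule.run (cDist.run (input n E)) with hm
  obtain ⟨h1, h2, h3, h4, h5⟩ := h
  have hD : ∀ (x y : Fin n) d, Dm m x y d ↔ ∃ k, RR T k x y d := by
    intro x y d
    refine ⟨h4 x y d, fun ⟨k, hk⟩ => h5 x y d ?_⟩
    have := RR_card hT hk
    rwa [Fintype.card_fin] at this
  have ht : (Test.ex 6 (.reg 0) (.ex 7 (.reg 0)
      (tStep fun _ => .eq (.lit 0) (.lit 0)))).holds m ↔
      ∃ s t, Step T (fun _ => True) (fun x y d => ∃ k, RR T k x y d) s t := by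
    rw [holds_ex h1.1]
    refine exists_congr fun s => ?_
    have hm1 : Core E (m.setReg 6 s) := h1.setReg (by omega)
    rw [holds_ex hm1.1]
    refine exists_congr fun t => ?_
    have hm2 : Core E ((m.setReg 6 s).setReg 7 t) := hm1.setReg (by omega)
    have hd2 : DistOK T ((m.setReg 6 s).setReg 7 t) := h2
    rw [holds_step hE hm2 hd2 (C' := fun _ => True)
      (fun m' _ _ z a _ => by simp [Test.holds, Exp.val]) (s := s) (t := t) (by simp) (by simp)]
    constructor
    · exact fun h => h.mono fun x y d => (hD x y d).1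
    · exact fun h => h.mono fun x y d => (hD x y d).2
  rw [pathLike_iff_rows hT, rows_iff_top hT, ← ht]
  have hrun : program.run (input n E) = cTop.run m := rfl
  unfold Cmd.accepts
  rw [hrun]
  unfold cTop
  simp only [Cmd.run]
  split_ifs with h6
  · refine ⟨fun _ => h6, fun _ => ?_⟩
    rw [arr_setArr, if_pos ⟨rfl, rfl, rfl, rfl⟩]
    rfl
  · refine ⟨fun h7 => ?_, fun h7 => absurd h7 h6⟩
    rw [h3] at h7
    exact absurd h7 (by omega)

theorem input_bdd (n : ℕ) (E : List (Fin n × Fin n)) : Bdd (n + E.length) (input n E) := by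
  constructor
  · intro x
    show (if x = 0 then n else if x = 1 then E.length else 0) ≤ _
    split_ifs <;> omega
  · intro a i j k
    have key : ∀ f : Fin n × Fin n → Fin n,
        ((E[i]?).map fun p => ((f p : Fin n) : ℕ)).getD 0 ≤ n := by
      intro f
      cases E[i]? with
      | none => simp
      | some p => simp only [Option.map_some, Option.getD_some]; exact (f p).2.le
    show (if a = 0 ∧ k = 0 then (if j = 0 then ((E[i]?).map fun p => (p.1 : ℕ)).getD 0
      else if j = 1 then ((E[i]?).map fun p => (p.2 : ℕ)).getD 0 else 0) else 0) ≤ _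
    split_ifs
    · exact (key Prod.fst).trans (by omega)
    · exact (key Prod.snd).trans (by omega)
    · omega
    · omega

end Pool.Agent.helper82.PL
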