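import Pool.Agent.helper82.PL.Snake

/-!
# Decomposition into rows
-/

namespace Pool.Agent.helper82.PL

variable {V : Type}

/-- Consecutive entries of the list are adjacent. -/
def Ch (T : SimpleGraph V) (Q : List V) : Prop :=
  ∀ i u v, Q[i]? = some u → Q[i + 1]? = some v → T.Adj u v

/-- `Rows T Q W`: the first row is `Q`, and `W` lists the vertices in the other rows. -/
inductive Rows (T : SimpleGraph V) : List V → List V → Prop
  | single (Q : List V) : Q ≠ [] → Ch T Q → Rows T Q []
  | cons (Q Q' W : List V) (i d : ℕ) (x y : V) : Q ≠ [] → Ch T Q → Rows T Q' W → 1 ≤ d →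
      i + d + 1 = Q.length → Q[i]? = some x → Q'[d]? = some y → T.Adj x y →
      Rows T Q (Q' ++ W)

theorem Rows.ne_nil {T : SimpleGraph V} {Q W : List V} (h : Rows T Q W) : Q ≠ [] := by
  cases h <;> assumption

theorem Rows.ch {T : SimpleGraph V} {Q W : List V} (h : Rows T Q W) : Ch T Q := by
  cases h <;> assumption

/-- From combinatorial data to rows. -/
theorem rows_of_LF {T : SimpleGraph V} {n : ℕ} {P : ℕ → Prop} {d : ℕ → ℕ} (h : LF n P d)
    (f : ℕ → V) (h1 : ∀ q, q + 1 < n → ¬ P q → T.Adj (f q) (f (q + 1)))
    (h2 : ∀ p, P p → T.Adj (f (p - d p)) (f (p + 1 + d p))) :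
    ∀ m a, a + m = n → 0 < m → (a = 0 ∨ P (a - 1)) → ∃ k W, 1 ≤ k ∧ a + k ≤ n ∧
      (a + k = n ∨ P (a + k - 1)) ∧ Rows T ((List.range' a k).map f) W ∧
      (List.range' a k).map f ++ W = (List.range' a m).map f := by
  intro m
  induction m using Nat.strong_induction_on with
  | _ m ih =>
    intro a ham hm ha
    obtain ⟨b, hb1, hb2, hb3, hb4⟩ := exists_end P a n (by omega)
    have hne : ∀ k, 1 ≤ k → (List.range' a k).map f ≠ [] := by
      intro k hk h
      have := congrArg List.length h
      simp at this
      omega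
    have hget : ∀ a k i v, ((List.range' a k).map f)[i]? = some v → i < k ∧ v = f (a + i) := by
      intro a k i v h
      rw [List.getElem?_map] at h
      by_cases hi : i < k
      · rw [List.getElem?_range' hi] at h
        simp at h
        exact ⟨hi, h.symm⟩
      · rw [List.getElem?_eq_none (by simpa using hi)] at h
        simp at h
    have hget2 : ∀ a k i, i < k → ((List.range' a k).map f)[i]? = some (f (a + i)) := by
      intro a k i hi
      rw [List.getElem?_map, List.getElem?_range' hi]
      simp
    have hch : Ch T ((List.range' a (b + 1 - a)).map f) := by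
      intro i u v hu hv
      obtain ⟨_, rfl⟩ := hget _ _ _ _ hu
      obtain ⟨hi, rfl⟩ := hget _ _ _ _ hv
      exact h1 (a + i) (by omega) (hb3 _ (by omega) (by omega))
    by_cases hbn : b = n - 1
    · -- the last row
      have hk : b + 1 - a = m := by omega
      refine ⟨m, [], hm, by omega, Or.inl (by omega), ?_, by simp⟩
      rw [hk] at hch
      exact Rows.single _ (hne m hm) hch
    · have hPb : P b := hb4.resolve_left hbn
      have c1 := h.pos b hPb
      have c2 := h.left b hPb
      have c3 := h.right b hPb
      obtain ⟨k', W', e1, e2, e3, e4, e5⟩ := ih (n - (b + 1)) (by omega) (b + 1) (by omega)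
        (by omega) (Or.inr (by simpa using hPb))
      have c4 : a ≤ b - d b := by
        rcases ha with rfl | ha
        · exact Nat.zero_le _
        · rcases Nat.eq_zero_or_pos a with rfl | ha0
          · exact Nat.zero_le _
          · have := h.sep2 (a - 1) b ha hPb (by omega)
            omega
      have c5 : d b < k' := by
        rcases e3 with e3 | e3
        · omega
        · have := h.sep1 b _ hPb e3 (by omega)
          omega
      refine ⟨b + 1 - a, (List.range' (b + 1) k').map f ++ W', by omega, by omega,
        Or.inr (by rw [show a + (b + 1 - a) - 1 = b by omega]; exact hPb), ?_, ?_⟩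
      · refine Rows.cons _ _ _ (b - d b - a) (d b) (f (b - d b)) (f (b + 1 + d b))
          (hne _ (by omega)) hch e4 c1 ?_ ?_ ?_ (h2 b hPb)
        · simp; omega
        · rw [hget2 _ _ _ (by omega), show a + (b - d b - a) = b - d b by omega]
        · rw [hget2 _ _ _ c5]
      · rw [e5, ← List.map_append]
        congr 1
        have := @List.range'_append a (b + 1 - a) (n - (b + 1)) 1
        rw [one_mul, show a + (b + 1 - a) = b + 1 by omega,
          show b + 1 - a + (n - (b + 1)) = m by omega] at this
        exact this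

/-- From rows to combinatorial data. -/
theorem LF_of_rows {T : SimpleGraph V} {Q W : List V} (h : Rows T Q W) :
    ∃ (P : ℕ → Prop) (d : ℕ → ℕ), LF (Q ++ W).length P d ∧ (∀ p, P p → Q.length ≤ p + 1) ∧
      (∀ q u v, ¬ P q → (Q ++ W)[q]? = some u → (Q ++ W)[q + 1]? = some v → T.Adj u v) ∧
      ∀ p u v, P p → (Q ++ W)[p - d p]? = some u → (Q ++ W)[p + 1 + d p]? = some v →
        T.Adj u v := by
  induction h with
  | single Q hne hch =>
    refine ⟨fun _ => False, fun _ => 0, ⟨?_, ?_, ?_, ?_, ?_⟩, fun p h => h.elim, ?_,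
      fun p _ _ h => h.elim⟩
    · exact fun _ h => h.elim
    · exact fun _ h => h.elim
    · exact fun _ h => h.elim
    · exact fun _ _ h => h.elim
    · exact fun _ _ h => h.elim
    · intro q u v _ hu hv
      rw [List.append_nil] at hu hv
      exact hch q u v hu hv
  | cons Q Q' W i D x y hne hch _ hD hi hx hy hxy ih =>
    obtain ⟨P', d', hLF, hfirst, hadj, hrung⟩ := ih
    set K := Q.length with hK
    have hyl : D < Q'.length := by
      by_contra hcon
      rw [List.getElem?_eq_none (by omega)] at hy
      exact absurd hy (by simp)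
    have hlen : (Q ++ (Q' ++ W)).length = K + (Q' ++ W).length := by rw [List.length_append]
    have hlen' : Q'.length ≤ (Q' ++ W).length := by rw [List.length_append]; omega
    let P : ℕ → Prop := fun p => p = K - 1 ∨ (K ≤ p ∧ P' (p - K))
    let d : ℕ → ℕ := fun p => if p = K - 1 then D else d' (p - K)
    have hK1 : 1 ≤ K := by omega
    have dK : d (K - 1) = D := if_pos rfl
    have dp : ∀ p, K ≤ p → d p = d' (p - K) := fun p hp => if_neg (by omega)
    have getR : ∀ j, K ≤ j → (Q ++ (Q' ++ W))[j]? = (Q' ++ W)[j - K]? := fun j hj =>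
      List.getElem?_append_right hj
    have getL : ∀ j, j < K → (Q ++ (Q' ++ W))[j]? = Q[j]? := fun j hj =>
      List.getElem?_append_left hj
    refine ⟨P, d, ⟨?_, ?_, ?_, ?_, ?_⟩, ?_, ?_, ?_⟩
    · rintro p (rfl | ⟨h1, h2⟩)
      · rw [dK]; exact hD
      · rw [dp p h1]; exact hLF.pos _ h2
    · rintro p (rfl | ⟨h1, h2⟩)
      · rw [dK]; omega
      · rw [dp p h1]
        have := hLF.left _ h2
        omega
    · rintro p (rfl | ⟨h1, h2⟩)
      · rw [dK, hlen]; omega
      · rw [dp p h1, hlen]
        have := hLF.right _ h2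
        omega
    · rintro p p' (rfl | ⟨h1, h2⟩) (rfl | ⟨h3, h4⟩) hlt
      · omega
      · rw [dK]
        have := hfirst _ h4
        omega
      · omega
      · rw [dp p h1]
        have := hLF.sep1 _ _ h2 h4 (by omega)
        omega
    · rintro p p' (rfl | ⟨h1, h2⟩) (rfl | ⟨h3, h4⟩) hlt
      · omega
      · rw [dp p' h3]
        have := hLF.left _ h4
        omega
      · omega
      · rw [dp p' h3]
        have := hLF.sep2 _ _ h2 h4 (by omega)
        omega
    · rintro p (rfl | ⟨h1, h2⟩)
      · omega
      · omega
    · intro q u v hq hu hv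
      have hq1 : q ≠ K - 1 := fun h => hq (Or.inl h)
      rcases Nat.lt_or_ge q K with h1 | h1
      · rw [getL q h1] at hu
        rw [getL (q + 1) (by omega)] at hv
        exact hch q u v hu hv
      · rw [getR q h1] at hu
        rw [getR (q + 1) (by omega), show q + 1 - K = q - K + 1 by omega] at hv
        exact hadj (q - K) u v (fun h => hq (Or.inr ⟨h1, h⟩)) hu hv
    · rintro p u v (rfl | ⟨h1, h2⟩) hu hv
      · rw [dK, getL _ (by omega), show K - 1 - D = i by omega, hx] at hu
        rw [dK, getR _ (by omega), show K - 1 + 1 + D - K = D by omega,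
          List.getElem?_append_left hyl, hy] at hv
        simp only [Option.some.injEq] at hu hv
        rw [← hu, ← hv]
        exact hxy
      · have h3 := hLF.left _ h2
        rw [dp p h1, getR _ (by omega),
          show p - d' (p - K) - K = p - K - d' (p - K) by omega] at hu
        rw [dp p h1, getR _ (by omega),
          show p + 1 + d' (p - K) - K = p - K + 1 + d' (p - K) by omega] at hv
        exact hrung _ u v h2 hu hv

/-- Path-like trees are exactly the trees which decompose into rows. -/
theorem pathLike_iff_rows {T : SimpleGraph V} (hT : T.IsTree) :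
    PathLike T ↔ ∃ Q W, Rows T Q W ∧ (Q ++ W).Nodup ∧ ∀ v, v ∈ Q ++ W := by
  classical
  constructor
  · rintro ⟨_, n, e, S, he, hS, ⟨φ⟩⟩
    obtain ⟨P, d, hLF, h1, h2⟩ := exists_LF he hS
    obtain ⟨v₀⟩ := hT.connected.nonempty
    have hn : 0 < n := (φ v₀).pos
    let f : ℕ → V := fun i => if h : i < n then φ.symm ⟨i, h⟩ else v₀
    have hf : ∀ i (h : i < n), f i = φ.symm ⟨i, h⟩ := fun i h => dif_pos h
    have hadj : ∀ x y, x < n → y < n → x ≠ y → TAdj S x y → T.Adj (f x) (f y) := by
      intro x y hx hy hne hxy
      rw [hf x hx, hf y hy, φ.symm.map_adj_iff]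
      refine ⟨fun h => hne (congrArg Fin.val h), Or.inl hxy⟩
    obtain ⟨k, W, hk1, hk2, _, hrows, happ⟩ := rows_of_LF hLF f
      (fun q hq hP => hadj q (q + 1) (by omega) hq (by omega) (h1 q hq hP))
      (fun p hP => by
        have c1 := hLF.pos p hP
        have c2 := hLF.left p hP
        have c3 := hLF.right p hP
        exact hadj _ _ (by omega) c3 (by omega) (h2 p hP)) n 0 (by omega) hn (Or.inl rfl)
    refine ⟨_, W, hrows, ?_, ?_⟩
    · rw [happ]
      refine List.Nodup.map_on ?_ (List.nodup_range')
      intro x hx y hy hxy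
      rw [List.mem_range'] at hx hy
      obtain ⟨i, hi, rfl⟩ := hx
      obtain ⟨j, hj, rfl⟩ := hy
      rw [hf _ (by omega), hf _ (by omega)] at hxy
      have := congrArg Fin.val (φ.symm.injective hxy)
      simpa using this
    · intro v
      rw [happ, List.mem_map]
      refine ⟨φ v, ?_, ?_⟩
      · rw [List.mem_range']
        exact ⟨(φ v : ℕ), (φ v).2, by simp⟩
      · rw [hf _ (φ v).2]
        exact φ.symm_apply_apply v
  · rintro ⟨Q, W, hrows, hnd, hall⟩
    obtain ⟨P, d, hLF, _, h1, h2⟩ := LF_of_rows hrows
    have hpos : 0 < (Q ++ W).length := by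
      have := hrows.ne_nil
      rw [List.length_append]
      have := List.length_pos_of_ne_nil this
      omega
    let g : Fin (Q ++ W).length ≃ V := hnd.getEquivOfForallMemList _ hall
    have hg : ∀ i, g i = (Q ++ W).get i := fun i => rfl
    refine pathLike_of_LF hT hpos g hLF ?_ ?_
    · intro x y hxy hP
      rw [hg, hg]
      refine h1 x _ _ hP ?_ ?_
      · simp
      · rw [← hxy]; simp
    · intro p x y hP hx hy
      rw [hg, hg]
      refine h2 p _ _ hP ?_ ?_
      · rw [← hx]; simp
      · rw [← hy]; simp

end Pool.Agent.helper82.PL
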