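import Pool.Agent.helper82.PL.Tree

/-!
# The dynamic programming rule
-/

namespace Pool.Agent.helper82.PL

variable {V : Type}

/-- The component of `y` in `T - {x, y}` decomposes into rows, `y` being at distance `d` from the
start of the first row, with at most `k` vertices. -/
def RR (T : SimpleGraph V) (k : ℕ) (x y : V) (d : ℕ) : Prop :=
  T.Adj x y ∧ ∃ Q W, Rows T Q W ∧ (Q ++ W).Nodup ∧ (∀ z, z ∈ Q ++ W ↔ Cmp T x y z) ∧
    Q[d]? = some y ∧ (Q ++ W).length ≤ k

/-- The set `C` decomposes into rows, the first row being the path from `s` to `t`. -/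
def Step (T : SimpleGraph V) (C : V → Prop) (D : V → V → ℕ → Prop) (s t : V) : Prop :=
  (∀ z, C z → Btw T s t z) ∨ ∃ x y, T.Adj x y ∧ C y ∧ Btw T s t x ∧ ¬ Btw T s t y ∧ x ≠ t ∧
    D x y (T.dist x t) ∧ ∀ z, C z → Btw T s t z ∨ Cmp T x y z

/-- The dynamic programming rule. -/
def Rule (T : SimpleGraph V) (D : V → V → ℕ → Prop) (x y : V) (d : ℕ) : Prop :=
  T.Adj x y ∧ ∃ s t, Cmp T x y s ∧ Cmp T x y t ∧ Btw T s t y ∧ T.dist s y = d ∧
    Step T (Cmp T x y) D s t

theorem Step.mono {T : SimpleGraph V} {C : V → Prop} {D D' : V → V → ℕ → Prop}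
    (hD : ∀ x y d, D x y d → D' x y d) {s t : V} (h : Step T C D s t) : Step T C D' s t := by
  rcases h with h | ⟨x, y, h1, h2, h3, h4, h5, h6, h7⟩
  · exact Or.inl h
  · exact Or.inr ⟨x, y, h1, h2, h3, h4, h5, hD _ _ _ h6, h7⟩

theorem Rule.mono {T : SimpleGraph V} {D D' : V → V → ℕ → Prop}
    (hD : ∀ x y d, D x y d → D' x y d) {x y : V} {d : ℕ} (h : Rule T D x y d) :
    Rule T D' x y d := by
  obtain ⟨h0, s, t, h1, h2, h3, h4, h5⟩ := h
  exact ⟨h0, s, t, h1, h2, h3, h4, h5.mono hD⟩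

section

variable {T : SimpleGraph V} (hT : T.IsTree)

include hT

theorem step_sound {C : V → Prop} {s t : V} (hC : ∀ z, Btw T s t z → C z)
    (hsub : ∀ x y, T.Adj x y → C y → Btw T s t x → ¬ Btw T s t y → ∀ z, Cmp T x y z → C z)
    (h : Step T C (fun x y d => ∃ k, RR T k x y d) s t) :
    ∃ Q W, Rows T Q W ∧ (Q ++ W).Nodup ∧ (∀ z, z ∈ Q ++ W ↔ C z) ∧
      ∀ u, Btw T s t u → Q[T.dist s u]? = some u := by
  obtain ⟨Q, h1, h2, h3, h4, h5⟩ := exists_geod hT s t
  have hb := chain_btw hT h1 h2 h3 h4 h5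
  have hne : Q ≠ [] := by
    rintro rfl
    simp at h4
  have d0 : ∀ m v, Q[m]? = some v → T.dist s v = m := fun m v hv =>
    dist_chain hT h1 h2 h3 m v (by rw [Nat.zero_add]; exact hv)
  have hget : ∀ u, Btw T s t u → Q[T.dist s u]? = some u := by
    intro u hu
    obtain ⟨i, hi⟩ := List.mem_iff_getElem?.1 ((hb u).1 hu)
    rw [d0 i u hi]
    exact hi
  rcases h with h | ⟨x, y, c1, c2, c3, c4, c5, ⟨k, c6, Q', W', r1, r2, r3, r4, r5⟩, c7⟩
  · refine ⟨Q, [], Rows.single Q hne h1, by simpa using h2, fun z => ?_, hget⟩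
    rw [List.append_nil]
    exact ⟨fun hz => hC z ((hb z).2 hz), fun hz => (hb z).1 (h z hz)⟩
  · refine ⟨Q, Q' ++ W', ?_, ?_, fun z => ?_, hget⟩
    · have e1 : T.dist s x + T.dist x t = T.dist s t := c3
      refine Rows.cons Q Q' W' (T.dist s x) (T.dist x t) x y hne h1 r1 ?_ (by omega)
        (hget x c3) r4 c1
      have := hT.connected.pos_dist_of_ne c5
      omega
    · rw [List.nodup_append]
      refine ⟨h2, r2, ?_⟩
      rintro a ha b hb' rfl
      exact btw_not_cmp hT c1 c3 c4 ((hb a).2 ha) ((r3 a).1 hb')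
    · rw [List.mem_append, r3]
      constructor
      · rintro (hz | hz)
        · exact hC z ((hb z).2 hz)
        · exact hsub x y c1 c2 c3 c4 z hz
      · intro hz
        rcases c7 z hz with h | h
        · exact Or.inl ((hb z).1 h)
        · exact Or.inr h

theorem rule_sound {x y : V} {d : ℕ} (h : Rule T (fun x y d => ∃ k, RR T k x y d) x y d) :
    ∃ k, RR T k x y d := by
  obtain ⟨h0, s, t, h1, h2, h3, h4, h5⟩ := h
  obtain ⟨Q, W, r1, r2, r3, r4⟩ := step_sound hT (C := Cmp T x y) (s := s) (t := t)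
    (fun z hz => cmp_convex hT h0 h1 h2 hz)
    (fun x' y' c1 c2 c3 c4 z hz => cmp_sub hT h0 (cmp_convex hT h0 h1 h2 c3) c2
      (btw_not_cmp hT c1 c3 c4 h3) hz) h5
  refine ⟨_, h0, Q, W, r1, r2, r3, ?_, le_rfl⟩
  rw [← h4]
  exact r4 y h3

/-- Decompositions into rows satisfy the rule. -/
theorem step_complete {C : V → Prop} {Q W : List V} (h : Rows T Q W) (hnd : (Q ++ W).Nodup)
    (hC : ∀ z, z ∈ Q ++ W ↔ C z)
    (hsub : ∀ x y, T.Adj x y → C x → C y → x ∈ Q → y ∉ Q → (∀ u, u ∈ Q → ¬ Cmp T x y u) →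
      ∀ z, Cmp T x y z → C z) :
    ∃ s t, C s ∧ C t ∧ (∀ z, z ∈ Q → Btw T s t z) ∧ (∀ i u, Q[i]? = some u → T.dist s u = i) ∧
      Step T C (RR T ((Q ++ W).length - 1)) s t := by
  have hne := h.ne_nil
  have hch := h.ch
  have hndQ : Q.Nodup := (List.nodup_append.1 hnd).1
  have hpos : 0 < Q.length := List.length_pos_of_ne_nil hne
  obtain ⟨s, hs⟩ : ∃ s, Q[0]? = some s := ⟨Q[0], List.getElem?_eq_getElem _⟩
  obtain ⟨t, ht⟩ : ∃ t, Q[Q.length - 1]? = some t := ⟨Q[Q.length - 1], List.getElem?_eq_getElem _⟩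
  have hb := chain_btw hT hch hndQ hs (L := Q.length - 1) (by omega) ht
  have d0 : ∀ m v, Q[m]? = some v → T.dist s v = m := fun m v hv =>
    dist_chain hT hch hndQ hs m v (by rw [Nat.zero_add]; exact hv)
  have hQC : ∀ z, z ∈ Q → C z := fun z hz => (hC z).1 (List.mem_append_left _ hz)
  refine ⟨s, t, hQC s (List.mem_of_getElem? hs), hQC t (List.mem_of_getElem? ht),
    fun z hz => (hb z).2 hz, d0, ?_⟩
  cases h with
  | single _ _ _ =>
    left
    intro z hz
    rw [hb]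
    have := (hC z).2 hz
    rwa [List.append_nil] at this
  | cons _ Q' W' i D x y _ _ hrows hD hi hx hy hxy =>
    right
    have hxQ : x ∈ Q := List.mem_of_getElem? hx
    have hyQ' : y ∈ Q' ++ W' := List.mem_append_left _ (List.mem_of_getElem? hy)
    have hdisj : ∀ a, a ∈ Q → a ∉ Q' ++ W' := fun a ha hb' =>
      (List.nodup_append.1 hnd).2.2 a ha a hb' rfl
    have hyQ : y ∉ Q := fun h => hdisj y h hyQ'
    have hyC : C y := (hC y).1 (List.mem_append_right _ hyQ')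
    have hout : ∀ u, u ∈ Q → ¬ Cmp T x y u := fun u hu =>
      btw_not_cmp hT hxy ((hb x).2 hxQ) (fun h => hyQ ((hb y).1 h)) ((hb u).2 hu)
    -- the component
    have hin : ∀ z, z ∈ Q' ++ W' → Cmp T x y z := by
      refine hrows.closed (Cmp T x y) (fun u v hu hv huv hAu => ?_) ⟨y, hyQ', cmp_right hT hxy⟩
      by_contra hAv
      obtain ⟨_, rfl⟩ := cmp_exit hT hxy hAu huv hAv
      exact hdisj v hxQ hv
    have hsupp : ∀ z, z ∈ Q' ++ W' ↔ Cmp T x y z := by
      intro z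
      refine ⟨hin z, fun hz => ?_⟩
      have hzC := hsub x y hxy (hQC x hxQ) hyC hxQ hyQ hout z hz
      rcases List.mem_append.1 ((hC z).2 hzC) with h | h
      · exact absurd hz (hout z h)
      · exact h
    have hxt : T.dist x t = D := by
      refine dist_chain hT hch hndQ hx D t ?_
      rw [show i + D = Q.length - 1 by omega]
      exact ht
    refine ⟨x, y, hxy, hyC, (hb x).2 hxQ, fun h => hyQ ((hb y).1 h), ?_, ⟨hxy, Q', W', hrows,
      (List.nodup_append.1 hnd).2.1, hsupp, ?_, ?_⟩, ?_⟩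
    · rintro rfl
      rw [SimpleGraph.dist_self] at hxt
      omega
    · rw [hxt]; exact hy
    · rw [List.length_append (as := Q)]
      omega
    · intro z hz
      rcases List.mem_append.1 ((hC z).2 hz) with h | h
      · exact Or.inl ((hb z).2 h)
      · exact Or.inr (hin z h)

theorem RR_mono {k k' : ℕ} (hk : k ≤ k') {x y : V} {d : ℕ} (h : RR T k x y d) :
    RR T k' x y d := by
  obtain ⟨h0, Q, W, h1, h2, h3, h4, h5⟩ := h
  exact ⟨h0, Q, W, h1, h2, h3, h4, h5.trans hk⟩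

theorem rule_complete {k : ℕ} {x y : V} {d : ℕ} (h : RR T (k + 1) x y d) :
    Rule T (RR T k) x y d := by
  obtain ⟨h0, Q, W, h1, h2, h3, h4, h5⟩ := h
  have hyQ : y ∈ Q := List.mem_of_getElem? h4
  obtain ⟨s, t, c1, c2, c3, c4, c5⟩ := step_complete hT h1 h2 h3
    (fun x' y' e1 e2 e3 _ _ e4 z hz => cmp_sub hT h0 e2 e3 (e4 y hyQ) hz)
  refine ⟨h0, s, t, c1, c2, c3 y hyQ, c4 d y h4, c5.mono fun a b e hab => ?_⟩
  exact RR_mono hT (by omega) hab

/-- The final test. -/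
theorem rows_iff_top : (∃ Q W, Rows T Q W ∧ (Q ++ W).Nodup ∧ ∀ v, v ∈ Q ++ W) ↔
    ∃ s t, Step T (fun _ => True) (fun x y d => ∃ k, RR T k x y d) s t := by
  constructor
  · rintro ⟨Q, W, h1, h2, h3⟩
    obtain ⟨s, t, _, _, _, _, c5⟩ := step_complete hT (C := fun _ => True) h1 h2
      (fun z => ⟨fun _ => trivial, fun _ => h3 z⟩) (fun _ _ _ _ _ _ _ _ _ _ => trivial)
    exact ⟨s, t, c5.mono fun x y d hxy => ⟨_, hxy⟩⟩
  · rintro ⟨s, t, h⟩
    obtain ⟨Q, W, r1, r2, r3, _⟩ := step_sound hT (C := fun _ => True) (fun _ _ => trivial)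
      (fun _ _ _ _ _ _ _ _ => trivial) h
    exact ⟨Q, W, r1, r2, fun v => (r3 v).2 trivial⟩

/-- The number of rows is bounded by the number of vertices. -/
theorem RR_card [Fintype V] {k : ℕ} {x y : V} {d : ℕ} (h : RR T k x y d) :
    RR T (Fintype.card V) x y d := by
  obtain ⟨h0, Q, W, h1, h2, h3, h4, h5⟩ := h
  exact ⟨h0, Q, W, h1, h2, h3, h4, h2.length_le_card⟩

end

end Pool.Agent.helper82.PL
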