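import Pool.Agent.helper82.PL.Grid

/-!
# From combinatorial data to grid embeddings
-/

namespace Pool.Agent.helper82.PL

/-- Direction of the rows. -/
def sgn (k : ℕ) : ℤ := if k % 2 = 0 then 1 else -1

theorem sgn_succ (k : ℕ) : sgn (k + 1) = -sgn k := by
  unfold sgn
  rcases Nat.even_or_odd' k with ⟨j, rfl | rfl⟩
  · rw [if_neg (by omega), if_pos (by omega)]
  · rw [if_pos (by omega), if_neg (by omega)]
    norm_num

theorem sgn_sq (k : ℕ) : sgn k ^ 2 = 1 := by
  unfold sgn
  split_ifs <;> norm_num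

open Classical in
/-- The embedding in rows, alternating to the right and to the left. -/
noncomputable def snake (P : ℕ → Prop) : ℕ → ℤ × ℕ
  | 0 => (0, 0)
  | i + 1 => if P i then ((snake P i).1, (snake P i).2 + 1)
      else ((snake P i).1 + sgn (snake P i).2, (snake P i).2)

theorem snake_pos {P : ℕ → Prop} {i : ℕ} (h : P i) :
    snake P (i + 1) = ((snake P i).1, (snake P i).2 + 1) := by
  rw [snake, if_pos h]

theorem snake_neg {P : ℕ → Prop} {i : ℕ} (h : ¬ P i) :
    snake P (i + 1) = ((snake P i).1 + sgn (snake P i).2, (snake P i).2) := by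
  rw [snake, if_neg h]

theorem snake_row {P : ℕ → Prop} {i : ℕ} : ∀ m, (∀ q, i ≤ q → q < i + m → ¬ P q) →
    snake P (i + m) = ((snake P i).1 + m * sgn (snake P i).2, (snake P i).2) := by
  intro m
  induction m with
  | zero => intro _; simp
  | succ m ih =>
    intro h
    have h1 := ih fun q hq1 hq2 => h q hq1 (by omega)
    have h2 : ¬ P (i + m) := h _ (by omega) (by omega)
    rw [← add_assoc, snake_neg h2, h1]
    simp only [Prod.mk.injEq, and_true]
    push_cast
    ring

theorem snake_le {P : ℕ → Prop} {i k : ℕ} (h : i ≤ k) : (snake P i).2 ≤ (snake P k).2 := by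
  induction k, h using Nat.le_induction with
  | base => exact le_rfl
  | succ k hk ih =>
    refine ih.trans ?_
    by_cases h : P k
    · rw [snake_pos h]; exact Nat.le_succ _
    · rw [snake_neg h]

theorem snake_no {P : ℕ → Prop} {i k : ℕ} (h : (snake P i).2 = (snake P k).2) {q : ℕ}
    (h1 : i ≤ q) (h2 : q < k) : ¬ P q := by
  intro hq
  have h3 : (snake P i).2 ≤ (snake P q).2 := snake_le h1
  have h4 : (snake P (q + 1)).2 ≤ (snake P k).2 := snake_le h2
  rw [snake_pos hq] at h4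
  simp only at h4
  omega

/-- The embedding. -/
noncomputable def emb (P : ℕ → Prop) (i : ℕ) : ℤ × ℤ := ((snake P i).1, ((snake P i).2 : ℤ))

theorem emb_pos {P : ℕ → Prop} {i : ℕ} (h : P i) : emb P (i + 1) - emb P i = (0, 1) := by
  unfold emb
  rw [snake_pos h]
  simp

theorem emb_neg {P : ℕ → Prop} {i : ℕ} (h : ¬ P i) :
    emb P (i + 1) - emb P i = (sgn (snake P i).2, 0) := by
  unfold emb
  rw [snake_neg h]
  simp

theorem emb_ne {P : ℕ → Prop} {i k : ℕ} (h : P i) (h' : ¬ P k) :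
    emb P (i + 1) - emb P i ≠ emb P (k + 1) - emb P k := by
  rw [emb_pos h, emb_neg h']
  intro h
  have := congrArg Prod.snd h
  simp at this

theorem emb_isEmbedding (P : ℕ → Prop) (n : ℕ) : IsEmbedding n (emb P) := by
  have key : ∀ i k, i < k → emb P i ≠ emb P k := by
    intro i k hik h
    have h1 : (snake P i).1 = (snake P k).1 := by
      have := congrArg Prod.fst h
      exact this
    have h2 : (snake P i).2 = (snake P k).2 := by
      have := congrArg Prod.snd h
      simpa [emb] using this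
    have h3 := snake_row (P := P) (i := i) (k - i) fun q hq1 hq2 =>
      snake_no h2 hq1 (by omega)
    rw [show i + (k - i) = k by omega] at h3
    rw [h3] at h1
    simp only at h1
    have h4 : ((k - i : ℕ) : ℤ) * sgn (snake P i).2 = 0 := by omega
    rcases mul_eq_zero.1 h4 with h5 | h5
    · omega
    · have := sgn_sq (snake P i).2
      rw [h5] at this
      norm_num at this
  refine ⟨fun i j _ _ h => ?_, fun i _ => ?_⟩
  · rcases Nat.lt_trichotomy i j with h1 | h1 | h1
    · exact absurd h (key _ _ h1)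
    · exact h1
    · exact absurd h.symm (key _ _ h1)
  · rw [gridAdj_iff]
    by_cases h : P i
    · rw [emb_pos h]; norm_num
    · rw [emb_neg h]
      simp [sgn_sq]

theorem emb_straight {P : ℕ → Prop} {a b : ℕ} (h : ∀ q, a ≤ q → q < b → ¬ P q) :
    Straight (emb P) a b := by
  have key : ∀ i, a ≤ i → i < b → emb P (i + 1) - emb P i = (sgn (snake P a).2, 0) := by
    intro i h1 h2
    rw [emb_neg (h i h1 h2)]
    have := snake_row (P := P) (i := a) (i - a) fun q hq1 hq2 => h q hq1 (by omega)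
    rw [show a + (i - a) = i by omega] at this
    rw [this]
  intro i j h1 h2 h3 h4
  rw [key i h1 h2, key j h3 h4]

theorem isSegment_row {P : ℕ → Prop} {n a b : ℕ} (hab : a < b) (hbn : b < n)
    (h : ∀ q, a ≤ q → q < b → ¬ P q) (ha : a = 0 ∨ P (a - 1)) (hb : b = n - 1 ∨ P b) :
    IsSegment n (emb P) a b := by
  refine ⟨hab, hbn, emb_straight h, fun a' b' h1 h2 h3 h4 => ⟨?_, ?_⟩⟩
  · by_contra hne
    rcases ha with ha | ha
    · omega
    · exact emb_ne ha (h a le_rfl hab) (h4 (a - 1) a (by omega) (by omega) h1 (by omega))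
  · by_contra hne
    rcases hb with hb | hb
    · omega
    · exact emb_ne hb (h a le_rfl hab) (h4 b a (by omega) (by omega) h1 (by omega))

theorem isSegment_edge {P : ℕ → Prop} {n p : ℕ} (hp : P p) (h1 : 1 ≤ p) (h2 : ¬ P (p - 1))
    (h3 : ¬ P (p + 1)) (h4 : p + 1 < n) : IsSegment n (emb P) p (p + 1) := by
  refine ⟨Nat.lt_succ_self p, h4, fun i j hi1 hi2 hj1 hj2 => ?_, fun a' b' h5 h6 h7 h8 =>
    ⟨?_, ?_⟩⟩
  · have : i = j := by omega
    rw [this]
  · by_contra hne
    exact emb_ne hp h2 (h8 p (p - 1) (by omega) (by omega) (by omega) (by omega))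
  · by_contra hne
    exact emb_ne hp h3 (h8 p (p + 1) (by omega) (by omega) (by omega) (by omega))

theorem exists_start (P : ℕ → Prop) (p : ℕ) :
    ∃ a, a ≤ p ∧ (∀ q, a ≤ q → q < p → ¬ P q) ∧ (a = 0 ∨ P (a - 1)) := by
  induction p with
  | zero => exact ⟨0, le_rfl, fun q _ h => absurd h (Nat.not_lt_zero q), Or.inl rfl⟩
  | succ p ih =>
    by_cases h : P p
    · exact ⟨p + 1, le_rfl, fun q h1 h2 => by omega, Or.inr h⟩
    · obtain ⟨a, h1, h2, h3⟩ := ih
      refine ⟨a, by omega, fun q h4 h5 => ?_, h3⟩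
      rcases Nat.lt_succ_iff_lt_or_eq.1 h5 with h6 | rfl
      · exact h2 q h4 h6
      · exact h

theorem exists_end (P : ℕ → Prop) (c n : ℕ) (hc : c < n) :
    ∃ b, c ≤ b ∧ b < n ∧ (∀ q, c ≤ q → q < b → ¬ P q) ∧ (b = n - 1 ∨ P b) := by
  classical
  have hex : ∃ b, c ≤ b ∧ (b = n - 1 ∨ P b) := ⟨n - 1, by omega, Or.inl rfl⟩
  have h1 := Nat.find_spec hex
  have h2 : Nat.find hex ≤ n - 1 := Nat.find_min' hex ⟨by omega, Or.inl rfl⟩
  refine ⟨Nat.find hex, h1.1, by omega, fun q hq1 hq2 hq => ?_, h1.2⟩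
  exact Nat.find_min hex hq2 ⟨hq1, Or.inr hq⟩

theorem LF.elemTrans {n : ℕ} {P : ℕ → Prop} {d : ℕ → ℕ} (h : LF n P d) {p : ℕ} (hp : P p) :
    ElemTrans n (emb P) (p, p - d p, p + 1 + d p) := by
  have h1 := h.pos p hp
  have h2 := h.left p hp
  have h3 := h.right p hp
  obtain ⟨a, ha1, ha2, ha3⟩ := exists_start P p
  obtain ⟨b, hb1, hb2, hb3, hb4⟩ := exists_end P (p + 1) n (by omega)
  have h4 : a ≤ p - d p := by
    rcases ha3 with rfl | ha3
    · exact Nat.zero_le _
    · rcases Nat.eq_zero_or_pos a with rfl | ha0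
      · exact Nat.zero_le _
      · have := h.sep2 (a - 1) p ha3 hp (by omega)
        omega
  have h5 : p + 1 + d p ≤ b := by
    rcases hb4 with rfl | hb4
    · omega
    · exact h.sep1 p b hp hb4 (by omega)
  refine ⟨a, b, isSegment_row (by omega) (by omega) ha2 ha3 (Or.inr hp),
    isSegment_edge hp (by omega) (ha2 _ (by omega) (by omega)) (hb3 _ le_rfl (by omega))
      (by omega),
    isSegment_row (by omega) hb2 hb3 (Or.inr hp) hb4, h4, Nat.sub_le _ _, ?_, h5, ?_, ?_⟩
  · show p + 1 ≤ p + 1 + d p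
    omega
  · -- the two points are adjacent
    have e1 := snake_row (P := P) (i := p - d p) (d p) fun q hq1 hq2 =>
      ha2 q (by omega) (by omega)
    rw [show p - d p + d p = p by omega] at e1
    have e2 := snake_row (P := P) (i := p + 1) (d p) fun q hq1 hq2 =>
      hb3 q hq1 (by omega)
    have e3 := snake_pos hp
    rw [e3] at e2
    have e4 : (snake P (p - d p)).2 = (snake P p).2 := by rw [e1]
    have e5 : (snake P (p - d p)).1 = (snake P p).1 - d p * sgn (snake P p).2 := by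
      have := congrArg Prod.fst e1
      simp only at this
      rw [e4] at this
      omega
    unfold GridAdj emb
    simp only
    rw [e2, e4, e5]
    simp only
    rw [sgn_succ]
    push_cast
    ring
  · show p - (p - d p) = p + 1 + d p - (p + 1)
    omega

/-- The set of transformations. -/
def trans (P : ℕ → Prop) (d : ℕ → ℕ) : Set (ℕ × ℕ × ℕ) :=
  {τ | P τ.1 ∧ τ.2.1 = τ.1 - d τ.1 ∧ τ.2.2 = τ.1 + 1 + d τ.1}

theorem transformed_adj {n : ℕ} {P : ℕ → Prop} {d : ℕ → ℕ} {x y : Fin n} :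
    (transformed n (trans P d)).Adj x y ↔
      (((y : ℕ) = x + 1 ∧ ¬ P x) ∨ ((x : ℕ) = y + 1 ∧ ¬ P y)) ∨
      ∃ p, P p ∧ (((x : ℕ) = p - d p ∧ (y : ℕ) = p + 1 + d p) ∨
        ((y : ℕ) = p - d p ∧ (x : ℕ) = p + 1 + d p)) := by
  have key : ∀ x y : ℕ, ((y = x + 1 ∧ ∀ τ ∈ trans P d, τ.1 ≠ x) ∨
      ∃ τ ∈ trans P d, τ.2.1 = x ∧ τ.2.2 = y) ↔
      (y = x + 1 ∧ ¬ P x) ∨ ∃ p, P p ∧ x = p - d p ∧ y = p + 1 + d p := by
    intro x y
    refine or_congr (and_congr_right fun _ => ?_) ?_
    · constructor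
      · intro h1 hx
        exact h1 (x, x - d x, x + 1 + d x) ⟨hx, rfl, rfl⟩ rfl
      · rintro h1 τ ⟨h2, _, _⟩ rfl
        exact h1 h2
    · constructor
      · rintro ⟨⟨p, j, l⟩, ⟨h1, h2, h3⟩, rfl, rfl⟩
        exact ⟨p, h1, h2, h3⟩
      · rintro ⟨p, h1, rfl, rfl⟩
        exact ⟨(p, p - d p, p + 1 + d p), ⟨h1, rfl, rfl⟩, rfl, rfl⟩
  unfold transformed
  rw [SimpleGraph.fromRel_adj, key, key]
  constructor
  · rintro ⟨_, (h1 | ⟨p, h1, h2, h3⟩) | (h1 | ⟨p, h1, h2, h3⟩)⟩
    · exact Or.inl (Or.inl h1)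
    · exact Or.inr ⟨p, h1, Or.inl ⟨h2, h3⟩⟩
    · exact Or.inl (Or.inr h1)
    · exact Or.inr ⟨p, h1, Or.inr ⟨h2, h3⟩⟩
  · rintro ((h1 | h1) | ⟨p, h1, (⟨h2, h3⟩ | ⟨h2, h3⟩)⟩)
    · exact ⟨by rintro rfl; omega, Or.inl (Or.inl h1)⟩
    · exact ⟨by rintro rfl; omega, Or.inr (Or.inl h1)⟩
    · exact ⟨by rintro rfl; omega, Or.inl (Or.inr ⟨p, h1, h2, h3⟩)⟩
    · exact ⟨by rintro rfl; omega, Or.inr (Or.inr ⟨p, h1, h2, h3⟩)⟩

theorem transformed_connected {n : ℕ} (hn : 0 < n) {P : ℕ → Prop} {d : ℕ → ℕ} (h : LF n P d) :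
    (transformed n (trans P d)).Connected := by
  have : Nonempty (Fin n) := ⟨⟨0, hn⟩⟩
  -- steps inside a row
  have step : ∀ i (h1 : i + 1 < n), ¬ P i →
      (transformed n (trans P d)).Adj ⟨i, by omega⟩ ⟨i + 1, h1⟩ := by
    intro i h1 h2
    rw [transformed_adj]
    exact Or.inl (Or.inl ⟨rfl, h2⟩)
  have row : ∀ i m (h1 : i + m < n), (∀ q, i ≤ q → q < i + m → ¬ P q) →
      (transformed n (trans P d)).Reachable ⟨i, by omega⟩ ⟨i + m, h1⟩ := by
    intro i m
    induction m with
    | zero => intro h1 _; exact SimpleGraph.Reachable.refl _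
    | succ m ih =>
      intro h1 h2
      exact (ih (by omega) fun q hq1 hq2 => h2 q hq1 (by omega)).trans
        (step (i + m) h1 (h2 _ (by omega) (by omega))).reachable
  have main : ∀ i (h1 : i < n), (transformed n (trans P d)).Reachable ⟨0, hn⟩ ⟨i, h1⟩ := by
    intro i
    induction i using Nat.strong_induction_on with
    | _ i ih =>
      intro h1
      cases i with
      | zero => exact SimpleGraph.Reachable.refl _
      | succ i =>
        by_cases hP : P i
        · have h2 := h.pos i hP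
          have h3 := h.left i hP
          have h4 := h.right i hP
          have r1 := ih (i - d i) (by omega) (by omega)
          have r2 : (transformed n (trans P d)).Adj ⟨i - d i, by omega⟩ ⟨i + 1 + d i, h4⟩ := by
            rw [transformed_adj]
            exact Or.inr ⟨i, hP, Or.inl ⟨rfl, rfl⟩⟩
          have r3 := row (i + 1) (d i) h4 fun q hq1 hq2 hq => by
            have := h.sep1 i q hP hq (by omega)
            omega
          exact r1.trans (r2.reachable.trans r3.symm)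
        · exact (ih i (by omega) (by omega)).trans (step i h1 hP).reachable
  exact SimpleGraph.Connected.mk fun x y => (main x x.2).symm.trans (main y y.2)

theorem eq_of_connected_le {V : Type} {H G : SimpleGraph V} (hle : H ≤ G) (hH : H.Connected)
    (hG : G.IsAcyclic) : H = G := by
  refine le_antisymm hle fun u v huv => ?_
  by_contra hcon
  have h1 : G.IsBridge s(u, v) := SimpleGraph.isAcyclic_iff_forall_adj_isBridge.1 hG huv
  rw [SimpleGraph.isBridge_iff] at h1
  refine h1 ((hH.preconnected u v).mono fun x y hxy => ?_)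
  rw [SimpleGraph.deleteEdges_adj]
  refine ⟨hle hxy, fun h2 => ?_⟩
  rw [Set.mem_singleton_iff, Sym2.eq_iff] at h2
  rcases h2 with ⟨rfl, rfl⟩ | ⟨rfl, rfl⟩
  · exact hcon hxy
  · exact hcon hxy.symm

/-- Trees which carry the combinatorial structure are path-like. -/
theorem pathLike_of_LF {V : Type} {T : SimpleGraph V} (hT : T.IsTree) {n : ℕ} (hn : 0 < n)
    (g : Fin n ≃ V) {P : ℕ → Prop} {d : ℕ → ℕ} (h : LF n P d)
    (h1 : ∀ x y : Fin n, (y : ℕ) = x + 1 → ¬ P x → T.Adj (g x) (g y))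
    (h2 : ∀ (p : ℕ) (x y : Fin n), P p → (x : ℕ) = p - d p → (y : ℕ) = p + 1 + d p →
      T.Adj (g x) (g y)) : PathLike T := by
  refine ⟨hT, n, emb P, trans P d, emb_isEmbedding P n, ?_, ?_⟩
  · rintro ⟨p, j, l⟩ ⟨h3, h4, h5⟩
    simp only at h4 h5
    subst h4 h5
    exact h.elemTrans h3
  · have e := SimpleGraph.Iso.map g (transformed n (trans P d))
    have hle : (transformed n (trans P d)).map g ≤ T := by
      rintro _ _ ⟨_, x, y, hxy, rfl, rfl⟩
      rw [transformed_adj] at hxy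
      show T.Adj (g x) (g y)
      rcases hxy with (⟨h3, h4⟩ | ⟨h3, h4⟩) | ⟨p, h3, (⟨h4, h5⟩ | ⟨h4, h5⟩)⟩
      · exact h1 x y h3 h4
      · exact (h1 y x h3 h4).symm
      · exact h2 p x y h3 h4 h5
      · exact (h2 p y x h3 h4 h5).symm
    have heq := eq_of_connected_le hle ((e.connected_iff).1 (transformed_connected hn h))
      hT.isAcyclic
    rw [← heq]
    exact ⟨e.symm⟩

end Pool.Agent.helper82.PL
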