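import Pool.Agent.helper82.PL.Rows

/-!
# Rows in a tree, in terms of distances
-/

namespace Pool.Agent.helper82.PL

variable {V : Type}

section

variable {T : SimpleGraph V} (hT : T.IsTree)

include hT

theorem tri (x y z : V) : T.dist x z ≤ T.dist x y + T.dist y z := hT.connected.dist_triangle

theorem dist_step {z x y : V} (h : T.Adj x y) :
    T.dist z x = T.dist z y + 1 ∨ T.dist z y = T.dist z x + 1 :=
  hT.dist_eq_dist_add_one_of_adj z h

theorem eq_of_dist_zero {x y : V} (h : T.dist x y = 0) : x = y :=
  hT.connected.dist_eq_zero_iff.1 h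

/-- The neighbour of `z` closer to `y` is unique. -/
theorem closer_unique {z a b y : V} (ha : T.Adj z a) (hb : T.Adj z b)
    (h1 : T.dist a y + 1 = T.dist z y) (h2 : T.dist b y + 1 = T.dist z y) : a = b := by
  obtain ⟨p, hp⟩ := hT.connected.exists_walk_length_eq_dist a y
  obtain ⟨q, hq⟩ := hT.connected.exists_walk_length_eq_dist b y
  have h3 : (SimpleGraph.Walk.cons ha p).IsPath :=
    SimpleGraph.Walk.isPath_of_length_eq_dist _ (by rw [SimpleGraph.Walk.length_cons, hp, h1])
  have h4 : (SimpleGraph.Walk.cons hb q).IsPath :=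
    SimpleGraph.Walk.isPath_of_length_eq_dist _ (by rw [SimpleGraph.Walk.length_cons, hq, h2])
  have h5 : (⟨_, h3⟩ : T.Path z y) = ⟨_, h4⟩ :=
    (hT.isAcyclic.subsingleton_path z y).elim _ _
  have h6 : SimpleGraph.Walk.cons ha p = SimpleGraph.Walk.cons hb q := congrArg Subtype.val h5
  have h7 := congrArg (fun w => SimpleGraph.Walk.getVert w 1) h6
  simpa using h7

theorem exists_closer {z y : V} (h : z ≠ y) : ∃ a, T.Adj z a ∧ T.dist a y + 1 = T.dist z y := by
  obtain ⟨p, hp⟩ := hT.connected.exists_walk_length_eq_dist z y
  cases p with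
  | nil => exact absurd rfl h
  | cons hza q =>
    rename_i a
    refine ⟨a, hza, ?_⟩
    have h1 := SimpleGraph.dist_le q
    have h2 := tri hT z a y
    have h3 : T.dist z a = 1 := SimpleGraph.dist_eq_one_iff_adj.2 hza
    rw [SimpleGraph.Walk.length_cons] at hp
    omega

/-- Distances along a list without repetitions whose consecutive entries are adjacent. -/
theorem dist_chain {Q : List V} (hQ : Ch T Q) (hnd : Q.Nodup) {i : ℕ} {u : V}
    (hu : Q[i]? = some u) : ∀ m v, Q[i + m]? = some v → T.dist u v = m := by
  intro m
  induction m using Nat.strong_induction_on with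
  | _ m ih =>
    intro v hv
    match m with
    | 0 =>
      rw [Nat.add_zero, hu] at hv
      simp only [Option.some.injEq] at hv
      rw [hv]
      exact SimpleGraph.dist_self
    | 1 => exact SimpleGraph.dist_eq_one_iff_adj.2 (hQ i u v hu hv)
    | m + 2 =>
      have hlt : i + (m + 2) < Q.length := by
        by_contra hcon
        rw [List.getElem?_eq_none (by omega)] at hv
        exact absurd hv (by simp)
      have hw : Q[i + (m + 1)]? = some Q[i + (m + 1)] := List.getElem?_eq_getElem _
      have hw' : Q[i + m]? = some Q[i + m] := List.getElem?_eq_getElem _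
      have e1 := ih (m + 1) (by omega) _ hw
      have e2 := ih m (by omega) _ hw'
      have hadj : T.Adj Q[i + (m + 1)] v := hQ _ _ _ hw hv
      have hadj' : T.Adj Q[i + m] Q[i + (m + 1)] := hQ _ _ _ hw' hw
      rcases dist_step hT (z := u) hadj with h | h
      · exfalso
        have h1 : v = Q[i + m] := by
          refine closer_unique hT (z := Q[i + (m + 1)]) (y := u) hadj hadj'.symm ?_ ?_
          · rw [SimpleGraph.dist_comm (u := v), SimpleGraph.dist_comm (v := u)]
            omega
          · rw [SimpleGraph.dist_comm (u := Q[i + m]), SimpleGraph.dist_comm (v := u)]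
            omega
        rw [List.getElem?_eq_getElem hlt, Option.some.injEq, h1] at hv
        have := (List.Nodup.getElem_inj_iff hnd).1 hv
        omega
      · omega

theorem exists_geod (s t : V) : ∃ Q : List V, Ch T Q ∧ Q.Nodup ∧ Q[0]? = some s ∧
    Q.length = T.dist s t + 1 ∧ Q[T.dist s t]? = some t := by
  have key : ∀ m s, T.dist s t = m → ∃ Q : List V, Ch T Q ∧ Q[0]? = some s ∧
      Q.length = m + 1 ∧ Q[m]? = some t ∧ ∀ i u, Q[i]? = some u → i + T.dist u t = m := by
    intro m
    induction m with
    | zero =>
      intro s hs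
      have := eq_of_dist_zero hT hs
      subst this
      refine ⟨[s], ?_, rfl, rfl, rfl, ?_⟩
      · intro i u v _ hv
        simp at hv
      · intro i u hu
        cases i with
        | zero => simp only [List.getElem?_cons_zero, Option.some.injEq] at hu; rw [← hu, hs]
        | succ i => simp at hu
    | succ m ih =>
      intro s hs
      obtain ⟨a, ha, hd⟩ := exists_closer hT (z := s) (y := t) (by
        rintro rfl
        rw [SimpleGraph.dist_self] at hs
        exact absurd hs (by omega))
      obtain ⟨Q, h1, h2, h3, h4, h5⟩ := ih a (by omega)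
      refine ⟨s :: Q, ?_, rfl, by simp [h3], by simpa using h4, ?_⟩
      · intro i u v hu hv
        cases i with
        | zero =>
          simp only [List.getElem?_cons_zero, Option.some.injEq] at hu
          rw [List.getElem?_cons_succ, h2, Option.some.injEq] at hv
          rw [← hu, ← hv]
          exact ha
        | succ i =>
          rw [List.getElem?_cons_succ] at hu hv
          exact h1 i u v hu hv
      · intro i u hu
        cases i with
        | zero =>
          simp only [List.getElem?_cons_zero, Option.some.injEq] at hu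
          rw [← hu]
          omega
        | succ i =>
          rw [List.getElem?_cons_succ] at hu
          have := h5 i u hu
          omega
  obtain ⟨Q, h1, h2, h3, h4, h5⟩ := key _ s rfl
  refine ⟨Q, h1, ?_, h2, h3, h4⟩
  rw [List.nodup_iff_injective_get]
  intro i j hij
  have e1 := h5 i _ (List.getElem?_eq_getElem i.2)
  have e2 := h5 j _ (List.getElem?_eq_getElem j.2)
  have : Q[(i : ℕ)] = Q[(j : ℕ)] := hij
  rw [this] at e1
  exact Fin.ext (by omega)

end

/-- `z` lies on the path from `s` to `t`. -/
def Btw (T : SimpleGraph V) (s t z : V) : Prop := T.dist s z + T.dist z t = T.dist s t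

/-- `z` lies on the side of `y` of the edge `{x, y}`. -/
def Cmp (T : SimpleGraph V) (x y z : V) : Prop := T.dist z y < T.dist z x

section

variable {T : SimpleGraph V} (hT : T.IsTree)

include hT

/-- Data for a list without repetitions whose consecutive entries are adjacent. -/
theorem chain_btw {Q : List V} (hQ : Ch T Q) (hnd : Q.Nodup) {s t : V} {L : ℕ}
    (hs : Q[0]? = some s) (hL : Q.length = L + 1) (ht : Q[L]? = some t) (z : V) :
    Btw T s t z ↔ z ∈ Q := by
  have d0 : ∀ m v, Q[m]? = some v → T.dist s v = m := fun m v hv =>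
    dist_chain hT hQ hnd hs m v (by rw [Nat.zero_add]; exact hv)
  have dL : ∀ i u, Q[i]? = some u → T.dist u t = L - i ∧ i ≤ L := by
    intro i u hu
    have hi : i < Q.length := by
      by_contra hcon
      rw [List.getElem?_eq_none (by omega)] at hu
      exact absurd hu (by simp)
    exact ⟨dist_chain hT hQ hnd hu (L - i) t (by rw [show i + (L - i) = L by omega]; exact ht),
      by omega⟩
  have dst : T.dist s t = L := d0 L t ht
  constructor
  · intro hz
    unfold Btw at hz
    have key : ∀ i z, T.dist s z = i → T.dist s z + T.dist z t = T.dist s t →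
        Q[i]? = some z := by
      intro i
      induction i with
      | zero =>
        intro z h1 _
        rw [← eq_of_dist_zero hT h1]
        exact hs
      | succ i ih =>
        intro z h1 h2
        obtain ⟨b, hb1, hb2⟩ := exists_closer hT (z := z) (y := s) (by
          rintro rfl
          rw [SimpleGraph.dist_self] at h1
          exact absurd h1 (by omega))
        rw [SimpleGraph.dist_comm (u := b), SimpleGraph.dist_comm (u := z)] at hb2
        have h3 := tri hT s b t
        have h4 := tri hT b z t
        have h5 : T.dist b z = 1 := SimpleGraph.dist_eq_one_iff_adj.2 hb1.symm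
        have hb := ih b (by omega) (by omega)
        have hlt : i + 1 < Q.length := by omega
        have hc : Q[i + 1]? = some Q[i + 1] := List.getElem?_eq_getElem _
        obtain ⟨e1, _⟩ := dL _ _ hc
        obtain ⟨e2, _⟩ := dL _ _ hb
        have : z = Q[i + 1] := by
          refine closer_unique hT (z := b) (y := t) hb1.symm (hQ _ _ _ hb hc) ?_ ?_ <;> omega
        rw [this]
        exact hc
    exact List.mem_of_getElem? (key _ z rfl hz)
  · intro hz
    obtain ⟨i, hi⟩ := List.mem_iff_getElem?.1 hz
    obtain ⟨e1, e2⟩ := dL i z hi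
    have e3 := d0 i z hi
    unfold Btw
    omega

theorem cmp_right {x y : V} (h : T.Adj x y) : Cmp T x y y := by
  unfold Cmp
  rw [SimpleGraph.dist_self]
  exact (hT.connected.pos_dist_of_ne h.ne').trans_le le_rfl

omit hT in
theorem not_cmp_left (x y : V) : ¬ Cmp T x y x := by
  unfold Cmp
  rw [SimpleGraph.dist_self]
  omega

theorem cmp_dist {x y z : V} (h : T.Adj x y) (hz : Cmp T x y z) :
    T.dist z x = T.dist z y + 1 := by
  unfold Cmp at hz
  rcases dist_step hT (z := z) h with h1 | h1 <;> omega

theorem not_cmp_dist {x y z : V} (h : T.Adj x y) (hz : ¬ Cmp T x y z) :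
    T.dist z y = T.dist z x + 1 := by
  unfold Cmp at hz
  rcases dist_step hT (z := z) h with h1 | h1 <;> omega

/-- The only way out of a component is through the removed edge. -/
theorem cmp_exit {x y z w : V} (h : T.Adj x y) (hz : Cmp T x y z) (hzw : T.Adj z w)
    (hw : ¬ Cmp T x y w) : z = y ∧ w = x := by
  have e1 := cmp_dist hT h hz
  have e2 := not_cmp_dist hT h hw
  have e3 : T.dist z w = 1 := SimpleGraph.dist_eq_one_iff_adj.2 hzw
  have e4 := tri hT z w x
  have e5 := tri hT w z y
  rw [SimpleGraph.dist_comm (u := w) (v := z)] at e5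
  have e6 : T.dist w x = T.dist z y := by omega
  by_cases hzy : z = y
  · refine ⟨hzy, eq_of_dist_zero hT ?_⟩
    rw [e6, hzy]
    exact SimpleGraph.dist_self
  · exfalso
    obtain ⟨a, ha1, ha2⟩ := exists_closer hT hzy
    have e7 := tri hT a y x
    have e8 : T.dist y x = 1 := SimpleGraph.dist_eq_one_iff_adj.2 h.symm
    have e9 := tri hT z a x
    have e10 : T.dist z a = 1 := SimpleGraph.dist_eq_one_iff_adj.2 ha1
    have : a = w := closer_unique hT (y := x) ha1 hzw (by omega) (by omega)
    subst this
    omega

/-- Distances between the two sides of an edge. -/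
theorem cmp_across {x y w : V} (h : T.Adj x y) (hw : Cmp T x y w) : ∀ z, ¬ Cmp T x y z →
    T.dist z w = T.dist z x + 1 + T.dist y w := by
  have key : ∀ m z, T.dist z w = m → ¬ Cmp T x y z →
      T.dist z w = T.dist z x + 1 + T.dist y w := by
    intro m
    induction m with
    | zero =>
      intro z hm hz
      exact absurd (eq_of_dist_zero hT hm ▸ hw) hz
    | succ m ih =>
      intro z hm hz
      obtain ⟨a, ha1, ha2⟩ := exists_closer hT (z := z) (y := w) (by
        rintro rfl
        exact hz hw)
      have e0 : T.dist w x = T.dist w y + 1 := cmp_dist hT h hw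
      rw [SimpleGraph.dist_comm (u := w), SimpleGraph.dist_comm (u := w)] at e0
      by_cases ha : Cmp T x y a
      · obtain ⟨rfl, rfl⟩ := cmp_exit hT h ha ha1.symm hz
        rw [SimpleGraph.dist_self]
        omega
      · have e1 := ih a (by omega) ha
        have e2 := tri hT z x w
        have e3 := tri hT z a x
        have e4 : T.dist z a = 1 := SimpleGraph.dist_eq_one_iff_adj.2 ha1
        omega
  exact fun z => key _ z rfl

/-- The components are convex. -/
theorem cmp_convex {x y s t z : V} (h : T.Adj x y) (hs : Cmp T x y s) (ht : Cmp T x y t)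
    (hz : Btw T s t z) : Cmp T x y z := by
  by_contra hcon
  have e1 := cmp_across hT h hs z hcon
  have e2 := cmp_across hT h ht z hcon
  have e3 := tri hT s y t
  unfold Btw at hz
  rw [SimpleGraph.dist_comm (u := s) (v := z)] at hz
  rw [SimpleGraph.dist_comm (u := s) (v := y)] at e3
  omega

/-- A path through `x'` but not through `y'` stays on the side of `x'`. -/
theorem btw_not_cmp {s t x y u : V} (h : T.Adj x y) (hx : Btw T s t x) (hy : ¬ Btw T s t y)
    (hu : Btw T s t u) : ¬ Cmp T x y u := by
  intro hc
  apply hy
  obtain ⟨Q, h1, h2, h3, h4, h5⟩ := exists_geod hT s t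
  have hb := chain_btw hT h1 h2 h3 h4 h5
  obtain ⟨i, hi⟩ := List.mem_iff_getElem?.1 ((hb x).1 hx)
  obtain ⟨j, hj⟩ := List.mem_iff_getElem?.1 ((hb u).1 hu)
  have d0 : ∀ m v, Q[m]? = some v → T.dist s v = m := fun m v hv =>
    dist_chain hT h1 h2 h3 m v (by rw [Nat.zero_add]; exact hv)
  have e1 := d0 i x hi
  have e2 := d0 j u hj
  have e3 := cmp_dist hT h hc
  have e4 : T.dist x y = 1 := SimpleGraph.dist_eq_one_iff_adj.2 h
  unfold Btw at hx hu ⊢
  have t1 := tri hT s u y
  have t2 := tri hT s x y
  have t3 := tri hT y x t
  have t4 := tri hT y u t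
  have t5 := tri hT s y t
  rw [SimpleGraph.dist_comm (u := y) (v := x)] at t3
  rw [SimpleGraph.dist_comm (u := y) (v := u)] at t4
  rcases Nat.le_total i j with hij | hij
  · have e5 := dist_chain hT h1 h2 hi (j - i) u (by rw [show i + (j - i) = j by omega]; exact hj)
    rw [SimpleGraph.dist_comm] at e5
    omega
  · have e5 := dist_chain hT h1 h2 hj (i - j) x (by rw [show j + (i - j) = i by omega]; exact hi)
    omega

/-- Nested components. -/
theorem cmp_sub {x y x' y' : V} (h : T.Adj x y) (hx' : Cmp T x y x')
    (hy' : Cmp T x y y') (hy : ¬ Cmp T x' y' y) {z : V} (hz : Cmp T x' y' z) : Cmp T x y z := by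
  by_contra hcon
  have e1 := cmp_across hT h hx' z hcon
  have e2 := cmp_across hT h hy' z hcon
  apply hy
  unfold Cmp at hz ⊢
  omega

end

/-- Rows are connected. -/
theorem Rows.closed {T : SimpleGraph V} {Q W : List V} (h : Rows T Q W) (A : V → Prop)
    (hA : ∀ u v, u ∈ Q ++ W → v ∈ Q ++ W → T.Adj u v → A u → A v) :
    (∃ u, u ∈ Q ++ W ∧ A u) → ∀ v, v ∈ Q ++ W → A v := by
  have row : ∀ (Q : List V), Ch T Q → (∀ u v, u ∈ Q → v ∈ Q → T.Adj u v → A u → A v) →
      (∃ u, u ∈ Q ∧ A u) → ∀ v, v ∈ Q → A v := by
    intro Q hQ hA ⟨u, hu, hAu⟩ v hv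
    obtain ⟨i, hi⟩ := List.mem_iff_getElem?.1 hu
    obtain ⟨j, hj⟩ := List.mem_iff_getElem?.1 hv
    have hup : ∀ (m i : ℕ) (u : V), Q[i]? = some u → A u → ∀ v, Q[i + m]? = some v → A v := by
      intro m
      induction m with
      | zero =>
        intro i u hi hAu v hv
        rw [Nat.add_zero, hi, Option.some.injEq] at hv
        rw [← hv]; exact hAu
      | succ m ih =>
        intro i u hi hAu v hv
        have hlt : i + (m + 1) < Q.length := by
          by_contra hcon
          rw [List.getElem?_eq_none (by omega)] at hv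
          exact absurd hv (by simp)
        have hw : Q[i + m]? = some Q[i + m] := List.getElem?_eq_getElem _
        exact hA _ _ (List.mem_of_getElem? hw) (List.mem_of_getElem? hv) (hQ _ _ _ hw hv)
          (ih i u hi hAu _ hw)
    have hdn : ∀ (m i : ℕ) (u : V), Q[i + m]? = some u → A u → ∀ v, Q[i]? = some v → A v := by
      intro m
      induction m with
      | zero =>
        intro i u hi hAu v hv
        rw [Nat.add_zero, hv, Option.some.injEq] at hi
        rw [hi]; exact hAu
      | succ m ih =>
        intro i u hi hAu v hv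
        have hlt : i + (m + 1) < Q.length := by
          by_contra hcon
          rw [List.getElem?_eq_none (by omega)] at hi
          exact absurd hi (by simp)
        have hw : Q[i + m]? = some Q[i + m] := List.getElem?_eq_getElem _
        refine ih i _ hw ?_ v hv
        exact hA _ _ (List.mem_of_getElem? hi) (List.mem_of_getElem? hw)
          (hQ _ _ _ hw hi).symm hAu
    rcases Nat.le_total i j with hij | hij
    · exact hup (j - i) i u hi hAu v (by rw [show i + (j - i) = j by omega]; exact hj)
    · exact hdn (i - j) j u (by rw [show j + (i - j) = i by omega]; exact hi) hAu v hj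
  induction h with
  | single Q _ hch =>
    rw [List.append_nil] at hA ⊢
    exact row Q hch hA
  | cons Q Q' W i D x y hne hch _ hD hi hx hy hxy ih =>
    rintro ⟨u, hu, hAu⟩ v hv
    have hxm : x ∈ Q := List.mem_of_getElem? hx
    have hym : y ∈ Q' := List.mem_of_getElem? hy
    have r1 := row Q hch fun u v hu hv => hA u v (List.mem_append_left _ hu)
      (List.mem_append_left _ hv)
    have r2 := ih fun u v hu hv => hA u v (List.mem_append_right _ hu)
      (List.mem_append_right _ hv)
    have m1 : x ∈ Q ++ (Q' ++ W) := List.mem_append_left _ hxm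
    have m2 : y ∈ Q ++ (Q' ++ W) := List.mem_append_right _ (List.mem_append_left _ hym)
    have m3 : y ∈ Q' ++ W := List.mem_append_left _ hym
    rcases List.mem_append.1 hu with hu | hu
    · have hAx : A x := r1 ⟨u, hu, hAu⟩ x hxm
      have hAy : A y := hA x y m1 m2 hxy hAx
      rcases List.mem_append.1 hv with hv | hv
      · exact r1 ⟨u, hu, hAu⟩ v hv
      · exact r2 ⟨y, m3, hAy⟩ v hv
    · have hAy : A y := r2 ⟨u, hu, hAu⟩ y m3
      have hAx : A x := hA y x m2 m1 hxy.symm hAy
      rcases List.mem_append.1 hv with hv | hv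
      · exact r1 ⟨x, hxm, hAx⟩ v hv
      · exact r2 ⟨u, hu, hAu⟩ v hv

end Pool.Agent.helper82.PL
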